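import Pool.Agent.N60.FD.Stm2

set_option autoImplicit false

/-! Project FD (helper60), leaf ASY: the choice of the parameters. Author: helper451. -/

namespace Pool.Agent.N60.FD

open Finset Pool.Agent.R701.GD

namespace ASY

/-- the bound for the base -/
theorem bb_le {K D J : ℕ} (hK : 1 ≤ K) (hD : 1 ≤ D) {T : ℝ} (hT : 10 ≤ T)
    (h : (K : ℝ) ^ 2 * D ≤ T ^ 2) (hJ : (J : ℝ) + 2 ≤ T) : (bb K D J : ℝ) ≤ T ^ 40 := by
  obtain ⟨k, hk⟩ : ∃ k : ℝ, k = K := ⟨_, rfl⟩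
  obtain ⟨d, hd⟩ : ∃ d : ℝ, d = D := ⟨_, rfl⟩
  have hk1 : 1 ≤ k := by rw [hk]; exact_mod_cast hK
  have hd1 : 1 ≤ d := by rw [hd]; exact_mod_cast hD
  rw [← hk, ← hd] at h
  have hT1 : 1 ≤ T := by linarith
  have hT0 : 0 ≤ T := by linarith
  have a1 : k ≤ T := by
    have : k ^ 2 ≤ T ^ 2 := by
      calc k ^ 2 = k ^ 2 * 1 := by ring
        _ ≤ k ^ 2 * d := by gcongr
        _ ≤ T ^ 2 := h
    exact le_of_sq_le_sq this hT0
  have a2 : d ≤ T ^ 2 := by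
    calc d = 1 * d := by ring
      _ ≤ k ^ 2 * d := by
        gcongr
        exact one_le_pow₀ hk1
      _ ≤ T ^ 2 := h
  have a3 : k * d ≤ T ^ 2 := by
    calc k * d ≤ k ^ 2 * d := by
          gcongr
          nlinarith
      _ ≤ T ^ 2 := h
  have b2 : (1 : ℝ) ≤ T ^ 2 := one_le_pow₀ hT1
  have b26 : T ^ 2 ≤ T ^ 6 := pow_le_pow_right₀ hT1 (by norm_num)
  obtain ⟨l, hl⟩ : ∃ l : ℝ, l = (LL K D : ℝ) := ⟨_, rfl⟩
  have hl' : l = 64 * (k ^ 2 * d) := by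
    rw [hl, hk, hd]
    unfold LL
    push_cast
    ring
  have hl0 : 0 ≤ l := by rw [hl]; positivity
  have l1 : l ≤ 64 * T ^ 2 := by rw [hl']; linarith
  have l2 : l + 6 ≤ 70 * T ^ 2 := by linarith
  have l3 : 2 * l + 13 ≤ 141 * T ^ 2 := by linarith
  obtain ⟨m, hm⟩ : ∃ m : ℝ, m = (C1 K D (LL K D) : ℝ) := ⟨_, rfl⟩
  have hm' : m = 8 * (k * d) + 8 * (l + 6) * d ^ 2 := by
    rw [hm, hk, hd, hl]
    unfold C1
    push_cast
    ring
  have hm0 : 0 ≤ m := by rw [hm]; positivity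
  have m1 : m ≤ 568 * T ^ 6 := by
    have e1 : 8 * (l + 6) * d ^ 2 ≤ 8 * (70 * T ^ 2) * (T ^ 2) ^ 2 := by gcongr
    have e2 : 8 * (70 * T ^ 2) * (T ^ 2) ^ 2 = 560 * T ^ 6 := by ring
    rw [hm']
    linarith
  obtain ⟨u, hu⟩ : ∃ u : ℝ, u = (UU K D J : ℝ) := ⟨_, rfl⟩
  have hu' : u = 2 ^ 20 * (k ^ 2 * d) ^ 2 * l * (l + 6) * (2 * l + 13) * m * ((J : ℝ) + 2) ^ 2 := by
    rw [hu, hk, hd, hl, hm]
    unfold UU
    push_cast
    ring
  have hu0 : 0 ≤ u := by rw [hu]; positivity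
  have u1 : u ≤ 2 ^ 20 * (T ^ 2) ^ 2 * (64 * T ^ 2) * (70 * T ^ 2) * (141 * T ^ 2) * (568 * T ^ 6) *
      T ^ 2 := by
    rw [hu']
    gcongr
  have e3 : (bb K D J : ℝ) = 32 * (k * (k ^ 2 * d)) * u := by
    rw [hu, hk, hd]
    unfold bb
    push_cast
    ring
  rw [e3]
  calc 32 * (k * (k ^ 2 * d)) * u ≤ 32 * (T * T ^ 2) * (2 ^ 20 * (T ^ 2) ^ 2 * (64 * T ^ 2) *
        (70 * T ^ 2) * (141 * T ^ 2) * (568 * T ^ 6) * T ^ 2) := by gcongr
    _ = (32 * 2 ^ 20 * 64 * 70 * 141 * 568) * T ^ 21 := by ring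
    _ ≤ 10 ^ 19 * T ^ 21 := by
      gcongr
      norm_num
    _ ≤ T ^ 19 * T ^ 21 := by gcongr
    _ = T ^ 40 := by ring

end ASY

open ASY in
theorem asy_main : ST_ASY := by
  refine ⟨1 / 10000, by norm_num, ?_⟩
  have h1 : ∀ᶠ T : ℝ in Filter.atTop, Real.log T ≤ 1 / 1600 * T ∧ 100 ≤ T := by
    have h2 := Real.isLittleO_log_id_atTop.bound (show (0 : ℝ) < 1 / 1600 by norm_num)
    filter_upwards [h2, Filter.eventually_ge_atTop (100 : ℝ)] with T hT hT2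
    refine ⟨?_, hT2⟩
    have h3 : Real.log T ≤ ‖Real.log T‖ := le_abs_self _
    have h4 : ‖id T‖ = T := by
      rw [id, Real.norm_eq_abs, abs_of_nonneg (by linarith)]
    rw [h4] at hT
    linarith
  obtain ⟨N₀, hN₀⟩ := ((Real.tendsto_log_atTop.comp tendsto_natCast_atTop_atTop).eventually
    h1).exists_forall_of_atTop
  refine ⟨N₀ + 1, ?_⟩
  intro N hN K D hK hD hKD
  obtain ⟨hlog, hT100⟩ := hN₀ N (by omega)
  simp only [Function.comp_apply] at hlog hT100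
  obtain ⟨T, hT⟩ : ∃ T, T = Real.log N := ⟨_, rfl⟩
  rw [← hT] at hlog hT100 hKD
  have hN1 : 1 ≤ N := by omega
  have hNr : (0 : ℝ) < N := by exact_mod_cast hN1
  have hT0 : 0 < T := by linarith
  have hl1 : 1 ≤ Real.log T := by
    rw [Real.le_log_iff_exp_le hT0]
    have := Real.exp_one_lt_d9
    linarith
  have hl0 : 0 < Real.log T := by linarith
  obtain ⟨X, hX⟩ : ∃ X, X = 1 / 10000 * T / Real.log T := ⟨_, rfl⟩
  rw [← hX] at hKD
  have hX0 : 0 ≤ X := by rw [hX]; positivity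
  have hXT : X ≤ T := by
    rw [hX, div_le_iff₀ hl0]
    nlinarith
  have hKT : (K : ℝ) ^ 2 * D ≤ T ^ 2 := hKD.trans (pow_le_pow_left₀ hX0 hXT 2)
  -- J
  obtain ⟨J, hJ⟩ : ∃ J, J = Nat.log 16 (Nat.sqrt N) := ⟨_, rfl⟩
  have hs0 : Nat.sqrt N ≠ 0 := by
    have : 0 < Nat.sqrt N := Nat.sqrt_pos.mpr hN1
    omega
  have hJ1 : 16 ^ J ≤ Nat.sqrt N := by rw [hJ]; exact Nat.pow_log_le_self 16 hs0
  have hJ2 : Nat.sqrt N < 16 ^ (J + 1) := by
    rw [hJ]; exact Nat.lt_pow_succ_log_self (by norm_num) _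
  have hl2a := Real.log_two_gt_d9
  have hl2b := Real.log_two_lt_d9
  have hlog16 : Real.log 16 = 4 * Real.log 2 := by
    rw [show (16 : ℝ) = 2 ^ 4 by norm_num, Real.log_pow]
    norm_num
  have hJu : (J : ℝ) + 2 ≤ T := by
    have e1 : 16 ^ J ≤ N := hJ1.trans (Nat.sqrt_le_self N)
    have e2 : ((16 : ℝ) ^ J) ≤ N := by exact_mod_cast e1
    have e3 := Real.log_le_log (by positivity) e2
    rw [Real.log_pow, hlog16, ← hT] at e3
    have e4 : (0 : ℝ) ≤ J := Nat.cast_nonneg J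
    nlinarith
  have hJl : T < 8 * ((J : ℝ) + 1) * Real.log 2 := by
    have e1 : N < (16 ^ (J + 1)) ^ 2 := by
      have e2 : N < (Nat.sqrt N + 1) ^ 2 := by
        have := Nat.lt_succ_sqrt N
        rw [sq]
        exact this
      exact e2.trans_le (Nat.pow_le_pow_left hJ2 2)
    have e2 : (N : ℝ) < ((16 : ℝ) ^ (J + 1)) ^ 2 := by exact_mod_cast e1
    have e3 := Real.log_lt_log hNr e2
    rw [Real.log_pow, Real.log_pow, hlog16, ← hT] at e3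
    push_cast at e3
    linarith
  -- M
  obtain ⟨M, hM⟩ : ∃ M, M = ⌊Real.sqrt (20 * ((K : ℝ) ^ 2 * D))⌋₊ + 1 := ⟨_, rfl⟩
  have hMr : (M : ℝ) = (⌊Real.sqrt (20 * ((K : ℝ) ^ 2 * D))⌋₊ : ℝ) + 1 := by
    rw [hM]; push_cast; ring
  have hpos : 0 ≤ 20 * ((K : ℝ) ^ 2 * D) := by positivity
  have hM1 : 20 * ((K : ℝ) ^ 2 * D) < (M : ℝ) ^ 2 := by
    have e1 : Real.sqrt (20 * ((K : ℝ) ^ 2 * D)) < M := by
      rw [hMr]; exact Nat.lt_floor_add_one _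
    have e2 := Real.sqrt_nonneg (20 * ((K : ℝ) ^ 2 * D))
    have e3 := Real.sq_sqrt hpos
    nlinarith
  have hM2 : (M : ℝ) ≤ 5 * X + 1 := by
    have e1 : Real.sqrt (20 * ((K : ℝ) ^ 2 * D)) ≤ 5 * X := by
      apply Real.sqrt_le_iff.mpr
      refine ⟨by positivity, ?_⟩
      nlinarith [sq_nonneg X]
    have e2 := Nat.floor_le (Real.sqrt_nonneg (20 * ((K : ℝ) ^ 2 * D)))
    rw [hMr]
    linarith
  refine ⟨J, M, by omega, hJ1, ?_, ?_⟩
  · have hb := bb_le hK hD (by linarith : (10 : ℝ) ≤ T) hKT hJu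
    have e1 : ((bb K D J : ℕ) : ℝ) ^ (2 * M) ≤ (T ^ 40) ^ (2 * M) :=
      pow_le_pow_left₀ (Nat.cast_nonneg _) hb _
    have e2 : (T ^ 40) ^ (2 * M) = T ^ (80 * M) := by
      rw [← pow_mul]
      congr 1
      ring
    have e3 : T ^ (80 * M) < 2 ^ J := by
      rw [← Real.log_lt_log_iff (by positivity) (by positivity), Real.log_pow, Real.log_pow]
      push_cast
      have e4 : X * Real.log T = 1 / 10000 * T := by
        rw [hX, div_mul_cancel₀ _ hl0.ne']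
      have e5 : (M : ℝ) * Real.log T ≤ (5 * X + 1) * Real.log T :=
        mul_le_mul_of_nonneg_right hM2 hl0.le
      nlinarith
    have e4 : ((bb K D J : ℕ) : ℝ) ^ (2 * M) < 2 ^ J := by
      rw [e2] at e1
      exact e1.trans_lt e3
    exact_mod_cast e4
  · have : ((20 * K ^ 2 * D : ℕ) : ℝ) < ((M ^ 2 : ℕ) : ℝ) := by
      push_cast
      linarith
    exact_mod_cast this

end Pool.Agent.N60.FD
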