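import Pool.Agent.N60.FD.Stm

/-! Project FD (helper60), leaf FD/BAD: the number of bad steps (helper568). -/

set_option autoImplicit false

namespace Pool.Agent.N60.FD

open Finset Pool.Agent.R701.GD

namespace N568BAD

/-- the pairs with product below `2 ^ k` -/
def prs (k : ℕ) : Finset (ℕ × ℕ) :=
  (range k).biUnion fun i => Ico (2 ^ i) (2 ^ (i + 1)) ×ˢ Ico 1 (2 ^ (k - i))

lemma card_prs (k : ℕ) : (prs k).card ≤ k * 2 ^ k := by
  unfold prs
  refine card_biUnion_le.trans ?_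
  refine (sum_le_card_nsmul _ _ (2 ^ k) ?_).trans (by simp)
  intro i hi
  rw [mem_range] at hi
  rw [card_product, Nat.card_Ico, Nat.card_Ico]
  have h1 : 2 ^ (i + 1) - 2 ^ i = 2 ^ i := by rw [pow_succ]; omega
  rw [h1]
  calc 2 ^ i * (2 ^ (k - i) - 1) ≤ 2 ^ i * 2 ^ (k - i) := Nat.mul_le_mul_left _ (Nat.sub_le _ _)
    _ = 2 ^ k := by rw [← pow_add]; congr 1; omega

lemma mem_prs {k a b : ℕ} (ha : 1 ≤ a) (hb : 1 ≤ b) (h : a * b < 2 ^ k) : (a, b) ∈ prs k := by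
  unfold prs
  rw [mem_biUnion]
  have ha' : a < 2 ^ k := lt_of_le_of_lt (Nat.le_mul_of_pos_right a hb) h
  have h1 : 2 ^ (Nat.log 2 a) ≤ a := Nat.pow_log_le_self 2 (by omega)
  have h2 : a < 2 ^ (Nat.log 2 a + 1) := Nat.lt_pow_succ_log_self (by norm_num) a
  have h3 : Nat.log 2 a < k := (Nat.pow_lt_pow_iff_right (by norm_num : 1 < 2)).1 (h1.trans_lt ha')
  refine ⟨Nat.log 2 a, mem_range.2 h3, ?_⟩
  rw [mem_product, mem_Ico, mem_Ico]
  refine ⟨⟨h1, h2⟩, hb, ?_⟩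
  show b < 2 ^ (k - Nat.log 2 a)
  by_contra hc
  push Not at hc
  have h4 : 2 ^ k ≤ a * b := by
    calc 2 ^ k = 2 ^ (Nat.log 2 a) * 2 ^ (k - Nat.log 2 a) := by rw [← pow_add]; congr 1; omega
      _ ≤ a * b := Nat.mul_le_mul h1 hc
  omega

end N568BAD

open N568BAD

/-- the number of bad steps -/
theorem bad_main : ST_BAD := by
  classical
  intro hREL hNEAR hFIB K D s N f A h L U j hL hU
  obtain ⟨M', hM'⟩ : ∃ M', M' = U * 2 ^ j := ⟨_, rfl⟩
  have hj : 1 ≤ 2 ^ j := Nat.one_le_two_pow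
  have hU1 : 1 ≤ U := by omega
  have hM1 : 1 ≤ M' := by rw [hM']; exact Nat.mul_pos hU1 hj
  have hex : ∀ n ∈ Bad D s f A L U j, ∃ (η : ℤ) (μ μ' : ℕ) (m : ℤ) (S : ℕ),
      Rel2 K D s L M' A n η μ μ' m S ∧ μ * μ' < 2 ^ (j + 1) := by
    intro n hn
    unfold Bad at hn
    rw [mem_filter] at hn
    obtain ⟨hW, n', hW', h1, h2, μ, μ', h3, h4, h5, h6, h7⟩ := hn
    have hlt : 2 * D * L * (μ * μ') < M' := by
      rw [hM']
      calc 2 * D * L * (μ * μ') ≤ 2 * D * L * 2 ^ (j + 1) := Nat.mul_le_mul_left _ h6.le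
        _ = (4 * D * L) * 2 ^ j := by rw [pow_succ]; ring
        _ < U * 2 ^ j := Nat.mul_lt_mul_of_pos_right hU (by omega)
    obtain ⟨η, m, S, hR⟩ := hREL K D s N f A h L M' n n' μ μ' hL hW hW' h1 h2 h3 h4 hlt (by
      intro k hk1 hk2
      refine lt_of_le_of_lt ?_ (h7 k hk1 hk2)
      rw [hM']
      exact Nat.mul_le_mul_right _ (Nat.mul_le_mul_left _ h5))
    exact ⟨η, μ, μ', m, S, hR, h6⟩
  choose! η μ μ' m S hR using hex
  obtain ⟨T, hT⟩ : ∃ T, T = TT K D s L M' := ⟨_, rfl⟩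
  obtain ⟨C, hC⟩ : ∃ C, C = C1 K D L := ⟨_, rfl⟩
  have hC1 : 1 ≤ C := by
    rw [hC]
    unfold C1
    have h1 := h.K1
    have h2 := h.D2
    have h9 : 1 ≤ 8 * K * D := Nat.mul_pos (by omega) (by omega)
    omega
  set box : Finset (ℤ × ℕ × ℕ) :=
    (Icc (-((L : ℤ) + 6)) ((L : ℤ) + 6)) ×ˢ prs (j + 1) with hbox
  have hmaps : ∀ n ∈ Bad D s f A L U j, (η n, μ n, μ' n) ∈ box := by
    intro n hn
    obtain ⟨⟨r1, r2, r3, r4, -⟩, r5⟩ := hR n hn
    rw [hbox, mem_product]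
    refine ⟨?_, mem_prs r3 r4 r5⟩
    rw [mem_Icc]
    rw [abs_le] at r2
    exact r2
  have hfib : ∀ τ ∈ box, ((Bad D s f A L U j).filter (fun n => (η n, μ n, μ' n) = τ)).card ≤
      9 * C * ((T + 6) * (L + 6) + 2 ^ (j + 1)) := by
    rintro ⟨e, a, c⟩ _
    set F := (Bad D s f A L U j).filter (fun n => (η n, μ n, μ' n) = (e, a, c)) with hF
    rcases F.eq_empty_or_nonempty with he | ⟨n₁, hn₁⟩
    · rw [he]
      simp
    have hFm : ∀ n ∈ F, n ∈ Bad D s f A L U j ∧ Rel2 K D s L M' A n e a c (m n) (S n) ∧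
        a * c < 2 ^ (j + 1) := by
      intro n hn
      rw [hF, mem_filter] at hn
      obtain ⟨hB, e0⟩ := hn
      simp only [Prod.mk.injEq] at e0
      obtain ⟨q1, q2, q3⟩ := e0
      have h8 := hR n hB
      rw [q1, q2, q3] at h8
      exact ⟨hB, h8⟩
    obtain ⟨-, hR1, hac⟩ := hFm n₁ hn₁
    obtain ⟨r1, r2, r3, r4, -⟩ := hR1
    have hP : 1 ≤ a * c := Nat.mul_pos r3 r4
    have hm : ∀ n ∈ F, m n ∈ Icc (-((C * (a * c) : ℕ) : ℤ)) ((C * (a * c) : ℕ) : ℤ) := by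
      intro n hn
      obtain ⟨-, hRn, -⟩ := hFm n hn
      have h5 := hRn.2.2.2.2.1
      rw [mem_Icc, ← abs_le, hC]
      push_cast
      exact h5
    have hf3 : ∀ y ∈ Icc (-((C * (a * c) : ℕ) : ℤ)) ((C * (a * c) : ℕ) : ℤ),
        (F.filter (fun n => m n = y)).card ≤ 3 * ((T + 6) * (L + 6) + a * c) / (a * c) := by
      intro y _
      rw [Nat.le_div_iff_mul_le hP]
      set F3 := F.filter (fun n => m n = y) with hF3
      rcases F3.eq_empty_or_nonempty with he | hne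
      · rw [he]
        simp
      set n₀ := F3.min' hne with hn₀
      have hmem : n₀ ∈ F3 := F3.min'_mem hne
      have hF3m : ∀ n ∈ F3, n ∈ W D s f ∧ Rel2 K D s L M' A n e a c y (S n) := by
        intro n hn
        rw [hF3, mem_filter] at hn
        obtain ⟨hn1, hn2⟩ := hn
        obtain ⟨hB, hRn, -⟩ := hFm n hn1
        rw [hn2] at hRn
        refine ⟨?_, hRn⟩
        unfold Bad at hB
        exact (mem_filter.1 hB).1
      refine hFIB F3 n₀ T L a c e r3 r4 r1 r2 ?_ ?_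
      · intro n hn
        have hle : n₀ ≤ n := F3.min'_le n hn
        refine ⟨hle, ?_⟩
        rcases hle.eq_or_lt with heq | hlt
        · omega
        · rw [hT]
          exact hNEAR K D s N f A h L M' hM1 n₀ n (hF3m n₀ hmem).1 (hF3m n hn).1 hlt e a c y _ _
            (hF3m n₀ hmem).2 (hF3m n hn).2
      · intro n hn
        obtain ⟨-, -, -, -, -, -, r7, r8, -⟩ := (hF3m n hn).2
        exact ⟨r7, r8⟩
    have h9 := card_le_mul_card_image_of_maps_to hm _ hf3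
    rw [Int.card_Icc] at h9
    have h10 : (((C * (a * c) : ℕ) : ℤ) + 1 - -((C * (a * c) : ℕ) : ℤ)).toNat =
        2 * (C * (a * c)) + 1 := by omega
    rw [h10] at h9
    have h11 : 2 * (C * (a * c)) + 1 ≤ 3 * (C * (a * c)) := by
      have : 1 ≤ C * (a * c) := Nat.mul_pos hC1 hP
      omega
    calc F.card ≤ 3 * ((T + 6) * (L + 6) + a * c) / (a * c) * (2 * (C * (a * c)) + 1) := h9
      _ ≤ 3 * ((T + 6) * (L + 6) + a * c) / (a * c) * (3 * (C * (a * c))) :=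
          Nat.mul_le_mul_left _ h11
      _ = 3 * C * (3 * ((T + 6) * (L + 6) + a * c) / (a * c) * (a * c)) := by ring
      _ ≤ 3 * C * (3 * ((T + 6) * (L + 6) + a * c)) :=
          Nat.mul_le_mul_left _ (Nat.div_mul_le_self _ _)
      _ ≤ 3 * C * (3 * ((T + 6) * (L + 6) + 2 ^ (j + 1))) :=
          Nat.mul_le_mul_left _ (Nat.mul_le_mul_left _ (Nat.add_le_add_left hac.le _))
      _ = 9 * C * ((T + 6) * (L + 6) + 2 ^ (j + 1)) := by ring
  have hcard := card_le_mul_card_image_of_maps_to hmaps _ hfib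
  have hb : box.card ≤ (2 * L + 13) * ((j + 2) * 2 ^ (j + 1)) := by
    rw [hbox, card_product, Int.card_Icc]
    refine Nat.mul_le_mul (by omega) ?_
    exact (card_prs (j + 1)).trans (Nat.mul_le_mul_right _ (by omega))
  obtain ⟨X, hX⟩ : ∃ X, X = 256 * K ^ 3 * D * L * s := ⟨_, rfl⟩
  obtain ⟨E, hE⟩ : ∃ E, E = 256 * K ^ 3 * D * C := ⟨_, rfl⟩
  have hT6 : T + 6 = (12 + E) + X / M' := by
    rw [hT, hE, hX, hC]
    unfold TT
    omega
  have hdiv : 2 ^ j * (X / M') ≤ X / U := by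
    rw [hM', ← Nat.div_div_eq_div_mul]
    exact Nat.mul_div_le _ _
  rw [← hC, ← hX, ← hE]
  calc (Bad D s f A L U j).card
      ≤ 9 * C * ((T + 6) * (L + 6) + 2 ^ (j + 1)) * box.card := hcard
    _ ≤ 9 * C * ((T + 6) * (L + 6) + 2 ^ (j + 1)) * ((2 * L + 13) * ((j + 2) * 2 ^ (j + 1))) :=
        Nat.mul_le_mul_left _ hb
    _ = 18 * (2 * L + 13) * (j + 2) * C *
        (2 ^ j * ((12 + E) * (L + 6) + 2 ^ (j + 1)) + (L + 6) * (2 ^ j * (X / M'))) := by
        rw [hT6, pow_succ]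
        ring
    _ ≤ 18 * (2 * L + 13) * (j + 2) * C *
        (2 ^ j * ((12 + E) * (L + 6) + 2 ^ (j + 1)) + (L + 6) * (X / U + 2 ^ j)) := by
        refine Nat.mul_le_mul_left _ (Nat.add_le_add_left (Nat.mul_le_mul_left _ ?_) _)
        exact hdiv.trans (Nat.le_add_right _ _)

end Pool.Agent.N60.FD
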