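import Pool.Agent.N60.FD.Stm2

/-! Project FD (helper60): the contradiction from the counting. -/

set_option autoImplicit false

namespace Pool.Agent.N60.FD

open Finset Pool.Agent.R701.GD

theorem core_main : ST_CORE := by
  intro hREL hNEAR hFIB hBAD hTREE hFIN K D s N f A h J M hM hs hb hM2
  have hK : 0 < K := h.K1
  have hD2 := h.D2
  have hD : 0 < D := by omega
  have hs1 := h.s1
  have hfK := h.fK
  obtain ⟨L, hL⟩ : ∃ L, L = LL K D := ⟨_, rfl⟩
  obtain ⟨C, hC⟩ : ∃ C, C = C1 K D L := ⟨_, rfl⟩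
  obtain ⟨U, hU⟩ : ∃ U, U = UU K D J := ⟨_, rfl⟩
  obtain ⟨b, hbb⟩ : ∃ b, b = bb K D J := ⟨_, rfl⟩
  obtain ⟨W, hW⟩ : ∃ W, W = K ^ 4 * D ^ 2 * L * (L + 6) * (2 * L + 13) * C * (J + 2) ^ 2 :=
    ⟨_, rfl⟩
  have hL' : L = 64 * K ^ 2 * D := hL
  have hL0 : 0 < L := by rw [hL']; positivity
  have hC0 : 0 < C := by rw [hC]; unfold C1; positivity
  have hUW : U = 2 ^ 20 * W := by
    rw [hU, hW, hC, hL]
    unfold UU
    ring
  have hW0 : 0 < W := by rw [hW]; positivity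
  have hU0 : 0 < U := by rw [hUW]; positivity
  have hbU : b = 32 * K ^ 3 * D * U := by rw [hbb, hU]; rfl
  rw [← hbb] at hb
  -- comparisons
  have hDLW : D * L ≤ W := by
    have e : W = D * L * (K ^ 4 * D * (L + 6) * (2 * L + 13) * C * (J + 2) ^ 2) := by
      rw [hW]; ring
    rw [e]
    exact Nat.le_mul_of_pos_right _ (by positivity)
  have hDLU : 4 * D * L < U := by
    have e : 4 * D * L = 4 * (D * L) := by ring
    rw [hUW, e]
    norm_num
    omega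
  have hCU : C ≤ U := by
    have e : U = C * (2 ^ 20 * K ^ 4 * D ^ 2 * L * (L + 6) * (2 * L + 13) * (J + 2) ^ 2) := by
      rw [hUW, hW]; ring
    rw [e]
    exact Nat.le_mul_of_pos_right _ (by positivity)
  have hb1 : 1 ≤ b := by rw [hbU]; exact Nat.succ_le_of_lt (by positivity)
  have hUb : U ≤ b := by
    rw [hbU]
    exact Nat.le_mul_of_pos_left _ (by positivity)
  have hbM : b ^ 2 ≤ b ^ (2 * M) := Nat.pow_le_pow_right hb1 (by omega)
  have hU2 : U ^ 2 ≤ 2 ^ J := ((Nat.pow_le_pow_left hUb 2).trans hbM).trans hb.le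
  have h8 : (8 : ℕ) ^ J = 2 ^ J * 4 ^ J := by rw [← mul_pow]; norm_num
  have p2 : 1 ≤ 2 ^ J := Nat.one_le_two_pow
  have h4J : (4 : ℕ) ^ J = 2 ^ J * 2 ^ J := by rw [← mul_pow]; norm_num
  have p8 : (8 : ℕ) ^ J ≤ s := by
    refine le_trans ?_ hs
    exact Nat.pow_le_pow_left (by norm_num) J
  have hbs : b ≤ s := by
    have h1 : b ≤ b ^ (2 * M) := Nat.le_self_pow (by omega) b
    have h2 : (2 : ℕ) ^ J ≤ 16 ^ J := Nat.pow_le_pow_left (by norm_num) J
    omega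
  -- the number of very large steps
  obtain ⟨Sc, hSc⟩ : ∃ Sc, Sc = (Pool.Agent.R330.GL.S 1 1 (2 * M)).card := ⟨_, rfl⟩
  obtain ⟨Gc, hGc⟩ : ∃ Gc, Gc = (G D s f A (8 * K * D)).card := ⟨_, rfl⟩
  obtain ⟨B, hB⟩ : ∃ B, B = ∑ j ∈ range J, (Bad D s f A L U j).card := ⟨_, rfl⟩
  have hmany := h.many (8 * K * D) le_rfl
  rw [← hGc] at hmany
  have hfin := hFIN hTREE K D s N f A h L U J b (2 * M) hL0 hU0 hbU.ge hb
  rw [← hSc, ← hGc, ← hB] at hfin
  -- (b)
  have hfL : 64 * K * D * (f / L) ≤ s := by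
    have h1 : L * (f / L) ≤ f := Nat.mul_div_le f L
    have h2 : K * (64 * K * D * (f / L)) ≤ K * s := by
      calc K * (64 * K * D * (f / L)) = L * (f / L) := by rw [hL']; ring
        _ ≤ f := h1
        _ ≤ K * s := hfK
    exact Nat.le_of_mul_le_mul_left h2 hK
  have h64 : 64 * K * D ≤ s := by
    refine le_trans ?_ hbs
    have e : b = 64 * K * D * (2 ^ 19 * K ^ 2 * W) := by
      rw [hbU, hUW]; ring
    rw [e]
    exact Nat.le_mul_of_pos_right _ (by positivity)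
  -- (c)
  obtain ⟨X, hX⟩ : ∃ X, X = 256 * K ^ 3 * D * L * s / U := ⟨_, rfl⟩
  have hXU : X * U ≤ 256 * K ^ 3 * D * L * s := by rw [hX]; exact Nat.div_mul_le_self _ _
  have hbad : ∀ j ∈ range J, (Bad D s f A L U j).card ≤ 18 * (2 * L + 13) * (J + 2) * C *
      (4 ^ J * ((L + 6) * (14 + 256 * K ^ 3 * D * C)) + (L + 6) * X) := by
    intro j hj
    have hjJ : j < J := mem_range.1 hj
    have h1 := hBAD hREL hNEAR hFIB K D s N f A h L U j hL0 hDLU
    rw [← hC, ← hX] at h1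
    refine h1.trans ?_
    have q1 : (2 : ℕ) ^ j ≤ 2 ^ J := Nat.pow_le_pow_right (by norm_num) hjJ.le
    have q2 : (2 : ℕ) ^ (j + 1) ≤ 2 ^ J := Nat.pow_le_pow_right (by norm_num) hjJ
    have q3 : 18 * (2 * L + 13) * (j + 2) * C ≤ 18 * (2 * L + 13) * (J + 2) * C :=
      Nat.mul_le_mul_right _ (Nat.mul_le_mul_left _ (by omega))
    refine Nat.mul_le_mul q3 ?_
    have q4 : 2 ^ j * ((12 + 256 * K ^ 3 * D * C) * (L + 6) + 2 ^ (j + 1)) ≤
        4 ^ J * ((12 + 256 * K ^ 3 * D * C) * (L + 6)) + 4 ^ J * 1 := by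
      rw [mul_add, mul_one]
      refine Nat.add_le_add (Nat.mul_le_mul_right _ ?_) ?_
      · rw [h4J]
        exact q1.trans (Nat.le_mul_of_pos_left _ p2)
      · rw [h4J]
        exact Nat.mul_le_mul q1 q2
    have q5 : (L + 6) * (X + 2 ^ j) ≤ (L + 6) * X + 4 ^ J * (L + 6) := by
      rw [mul_add]
      refine Nat.add_le_add_left ?_ _
      rw [mul_comm]
      refine Nat.mul_le_mul_right _ ?_
      rw [h4J]
      exact q1.trans (Nat.le_mul_of_pos_left _ p2)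
    have q6 : 4 ^ J * 1 ≤ 4 ^ J * (L + 6) := Nat.mul_le_mul_left _ (by omega)
    calc 2 ^ j * ((12 + 256 * K ^ 3 * D * C) * (L + 6) + 2 ^ (j + 1)) + (L + 6) * (X + 2 ^ j)
        ≤ (4 ^ J * ((12 + 256 * K ^ 3 * D * C) * (L + 6)) + 4 ^ J * (L + 6)) +
          ((L + 6) * X + 4 ^ J * (L + 6)) :=
          Nat.add_le_add (q4.trans (Nat.add_le_add_left q6 _)) q5
      _ = 4 ^ J * ((L + 6) * (14 + 256 * K ^ 3 * D * C)) + (L + 6) * X := by ring
  have hBle : B ≤ 18 * (2 * L + 13) * (J + 2) ^ 2 * C *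
      (4 ^ J * ((L + 6) * (14 + 256 * K ^ 3 * D * C)) + (L + 6) * X) := by
    rw [hB]
    refine (sum_le_card_nsmul _ _ _ hbad).trans ?_
    rw [card_range, smul_eq_mul]
    calc J * (18 * (2 * L + 13) * (J + 2) * C *
          (4 ^ J * ((L + 6) * (14 + 256 * K ^ 3 * D * C)) + (L + 6) * X))
        ≤ (J + 2) * (18 * (2 * L + 13) * (J + 2) * C *
          (4 ^ J * ((L + 6) * (14 + 256 * K ^ 3 * D * C)) + (L + 6) * X)) :=
          Nat.mul_le_mul_right _ (by omega)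
      _ = _ := by ring
  obtain ⟨P1, hP1⟩ : ∃ P1, P1 = 1152 * K * D * (2 * L + 13) * (J + 2) ^ 2 * C * (L + 6) * X :=
    ⟨_, rfl⟩
  obtain ⟨P2, hP2⟩ : ∃ P2, P2 = 1152 * K * D * (2 * L + 13) * (J + 2) ^ 2 * C * (L + 6) * 4 ^ J *
    (14 + 256 * K ^ 3 * D * C) := ⟨_, rfl⟩
  have hBP : 64 * K * D * B ≤ P1 + P2 := by
    calc 64 * K * D * B ≤ 64 * K * D * (18 * (2 * L + 13) * (J + 2) ^ 2 * C *
          (4 ^ J * ((L + 6) * (14 + 256 * K ^ 3 * D * C)) + (L + 6) * X)) :=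
          Nat.mul_le_mul_left _ hBle
      _ = P1 + P2 := by rw [hP1, hP2]; ring
  have hP1s : 2 ^ 20 * P1 ≤ 294912 * s := by
    have h1 : P1 * U ≤ 294912 * W * s := by
      calc P1 * U = 1152 * K * D * (2 * L + 13) * (J + 2) ^ 2 * C * (L + 6) * (X * U) := by
            rw [hP1]; ring
        _ ≤ 1152 * K * D * (2 * L + 13) * (J + 2) ^ 2 * C * (L + 6) *
            (256 * K ^ 3 * D * L * s) := Nat.mul_le_mul_left _ hXU
        _ = 294912 * W * s := by rw [hW]; ring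
    have h2 : W * (2 ^ 20 * P1) ≤ W * (294912 * s) := by
      calc W * (2 ^ 20 * P1) = P1 * U := by rw [hUW]; ring
        _ ≤ 294912 * W * s := h1
        _ = W * (294912 * s) := by ring
    exact Nat.le_of_mul_le_mul_left h2 hW0
  have hP2s : 2 ^ 20 * P2 ≤ 311040 * s := by
    have h1 : 14 + 256 * K ^ 3 * D * C ≤ 270 * K ^ 3 * D * C := by
      have : 1 ≤ K ^ 3 * D * C := Nat.succ_le_of_lt (by positivity)
      have e1 : 256 * K ^ 3 * D * C = 256 * (K ^ 3 * D * C) := by ring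
      have e2 : 270 * K ^ 3 * D * C = 270 * (K ^ 3 * D * C) := by ring
      rw [e1, e2]
      omega
    have h2 : L * (2 ^ 20 * P2) ≤ L * (311040 * s) := by
      calc L * (2 ^ 20 * P2) ≤ L * (2 ^ 20 * (1152 * K * D * (2 * L + 13) * (J + 2) ^ 2 * C *
            (L + 6) * 4 ^ J * (270 * K ^ 3 * D * C))) := by
            rw [hP2]
            exact Nat.mul_le_mul_left _ (Nat.mul_le_mul_left _ (Nat.mul_le_mul_left _ h1))
        _ = 311040 * (U * C) * 4 ^ J := by rw [hUW, hW]; ring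
        _ ≤ 311040 * (U * U) * 4 ^ J :=
            Nat.mul_le_mul_right _ (Nat.mul_le_mul_left _ (Nat.mul_le_mul_left _ hCU))
        _ = 311040 * (U ^ 2 * 4 ^ J) := by ring
        _ ≤ 311040 * (2 ^ J * 4 ^ J) :=
            Nat.mul_le_mul_left _ (Nat.mul_le_mul_right _ hU2)
        _ = 311040 * 8 ^ J := by rw [h8]
        _ ≤ 311040 * s := Nat.mul_le_mul_left _ p8
        _ ≤ L * (311040 * s) := Nat.le_mul_of_pos_left _ hL0
    exact Nat.le_of_mul_le_mul_left h2 hL0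
  have hBs : 64 * K * D * B ≤ s := by
    have h1 : 2 ^ 20 * (P1 + P2) ≤ 2 ^ 20 * s := by
      rw [mul_add]
      norm_num at hP1s hP2s ⊢
      omega
    exact hBP.trans (Nat.le_of_mul_le_mul_left h1 (by positivity))
  -- (d)
  have hd : 13 * (Sc + 1) ≤ 64 * K ^ 2 * D := by
    have h1 : 16 * s * (Sc + 1) ≤ 3 * s * (Sc + 1) + 64 * K ^ 2 * D * s := by
      calc 16 * s * (Sc + 1) ≤ 16 * (4 * K * D * Gc) * (Sc + 1) :=
            Nat.mul_le_mul_right _ (Nat.mul_le_mul_left _ hmany)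
        _ = 64 * K * D * (Gc * (Sc + 1)) := by ring
        _ ≤ 64 * K * D * (((f / L + 1) + B) * (Sc + 1) + f) := Nat.mul_le_mul_left _ hfin
        _ = (64 * K * D * (f / L) + 64 * K * D + 64 * K * D * B) * (Sc + 1) +
            64 * K * D * f := by ring
        _ ≤ (s + s + s) * (Sc + 1) + 64 * K * D * (K * s) := by
            refine Nat.add_le_add (Nat.mul_le_mul_right _ ?_) (Nat.mul_le_mul_left _ hfK)
            exact Nat.add_le_add (Nat.add_le_add hfL h64) hBs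
        _ = 3 * s * (Sc + 1) + 64 * K ^ 2 * D * s := by ring
    have h2 : s * (13 * (Sc + 1)) ≤ s * (64 * K ^ 2 * D) := by
      have e1 : 16 * s * (Sc + 1) = 3 * s * (Sc + 1) + s * (13 * (Sc + 1)) := by ring
      have e2 : 64 * K ^ 2 * D * s = s * (64 * K ^ 2 * D) := by ring
      rw [e1, e2] at h1
      exact Nat.le_of_add_le_add_left h1
    exact Nat.le_of_mul_le_mul_left h2 (by omega)
  -- (e)
  have hS := Pool.Agent.R330.GL.card_S_one (2 * M) M hM le_rfl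
  rw [← hSc] at hS
  have hS' : M ^ 2 ≤ 4 * Sc := by
    have : (M : ℝ) ^ 2 ≤ 4 * (Sc : ℝ) := by linarith
    exact_mod_cast this
  have e3 : 20 * K ^ 2 * D = 20 * (K ^ 2 * D) := by ring
  have e4 : 64 * K ^ 2 * D = 64 * (K ^ 2 * D) := by ring
  rw [e3] at hM2
  rw [e4] at hd
  omega

end Pool.Agent.N60.FD
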