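import Pool.Agent.N60.FD.Stm

/-!
Project FD (helper60), FIB: the steps of a short window with two divisibility conditions (helper712)
-/

set_option autoImplicit false

namespace Pool.Agent.N60.FD

open Finset Pool.Agent.R701.GD

/-- leaf FIB -/
theorem fib_main : ST_FIB := by
  classical
  intro F n₀ T L μ μ' η hμ hμ' hη hηL hF hdiv
  rcases F.eq_empty_or_nonempty with rfl | hne
  · simp
  obtain ⟨l, hl⟩ : ∃ l, l = Nat.lcm μ μ' := ⟨_, rfl⟩
  obtain ⟨d, hd⟩ : ∃ d, d = Nat.gcd μ μ' := ⟨_, rfl⟩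
  have hld : d * l = μ * μ' := by
    rw [hl, hd]
    exact Nat.gcd_mul_lcm μ μ'
  have hl0 : 0 < l := by
    rw [hl]
    exact Nat.lcm_pos (by omega) (by omega)
  have hdL : d ≤ L + 6 := by
    obtain ⟨n, hn⟩ := hne
    obtain ⟨h1, h2⟩ := hdiv n hn
    have h3 : (d : ℤ) ∣ (v n : ℤ) := by
      refine dvd_trans ?_ h1
      rw [hd]
      exact_mod_cast Nat.gcd_dvd_left μ μ'
    have h4 : (d : ℤ) ∣ (v n : ℤ) + η := by
      refine dvd_trans ?_ h2
      rw [hd]
      exact_mod_cast Nat.gcd_dvd_right μ μ'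
    have h5 : (d : ℤ) ∣ η := (Int.dvd_add_right h3).1 h4
    have h6 : (d : ℤ) ≤ |η| := Int.le_of_dvd (abs_pos.2 hη) ((dvd_abs _ _).2 h5)
    have h7 : (d : ℤ) ≤ (L : ℤ) + 6 := h6.trans hηL
    exact_mod_cast h7
  -- fibres of `v`
  have h1 : F.card ≤ 3 * (F.image v).card := by
    refine card_le_mul_card_image F 3 fun w _ => ?_
    have h2 : F.filter (fun n => v n = w) ⊆ {w, w - 2, w - 6} := by
      intro n hn
      have h3 := (mem_filter.1 hn).2
      simp only [mem_insert, mem_singleton]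
      unfold v b at h3
      split_ifs at h3 <;> omega
    exact (card_le_card h2).trans card_le_three
  have hVne : (F.image v).Nonempty := hne.image v
  obtain ⟨w₀, hw₀⟩ : ∃ w₀, w₀ = (F.image v).min' hVne := ⟨_, rfl⟩
  have hw₀m : w₀ ∈ F.image v := by
    rw [hw₀]
    exact min'_mem _ _
  have hmin : ∀ w ∈ F.image v, w₀ ≤ w := fun w hw => by
    rw [hw₀]
    exact min'_le _ _ hw
  have hbd : ∀ w ∈ F.image v, n₀ ≤ w ∧ w ≤ n₀ + T + 6 := by
    intro w hw
    obtain ⟨n, hn, rfl⟩ := mem_image.1 hw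
    have h2 := hF n hn
    have h3 := le_v n
    have h4 := v_le n
    omega
  have hcong : ∀ w ∈ F.image v, l ∣ w - w₀ := by
    intro w hw
    have hle := hmin w hw
    obtain ⟨n, hn, rfl⟩ := mem_image.1 hw
    obtain ⟨n', hn', hw'⟩ := mem_image.1 hw₀m
    obtain ⟨a1, a2⟩ := hdiv n hn
    obtain ⟨b1, b2⟩ := hdiv n' hn'
    rw [hw'] at b1 b2
    have c1 : (μ : ℤ) ∣ (v n : ℤ) - w₀ := dvd_sub a1 b1
    have c2 : (μ' : ℤ) ∣ (v n : ℤ) - w₀ := by
      have := dvd_sub a2 b2
      have e : (v n : ℤ) + η - ((w₀ : ℤ) + η) = (v n : ℤ) - w₀ := by ring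
      rwa [e] at this
    have e : ((v n - w₀ : ℕ) : ℤ) = (v n : ℤ) - w₀ := by
      push_cast [hle]
      ring
    rw [← e] at c1 c2
    rw [hl]
    exact Nat.lcm_dvd (by exact_mod_cast c1) (by exact_mod_cast c2)
  have h2 : (F.image v).card ≤ (T + 6) / l + 1 := by
    rw [← card_range ((T + 6) / l + 1)]
    refine card_le_card_of_injOn (fun w => (w - w₀) / l) ?_ ?_
    · intro w hw
      have hw' := mem_coe.1 hw
      rw [mem_coe, mem_range, Nat.lt_succ_iff]
      refine Nat.div_le_div_right ?_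
      have h3 := hbd w hw'
      have h4 := hbd w₀ hw₀m
      omega
    · intro w hw w' hw' he
      have hw1 := mem_coe.1 hw
      have hw2 := mem_coe.1 hw'
      have h3 := Nat.div_mul_cancel (hcong w hw1)
      have h4 := Nat.div_mul_cancel (hcong w' hw2)
      have he' : (w - w₀) / l = (w' - w₀) / l := he
      rw [he'] at h3
      have h5 := hmin w hw1
      have h6 := hmin w' hw2
      omega
  have h3 : F.card ≤ 3 * ((T + 6) / l + 1) := h1.trans (Nat.mul_le_mul_left _ h2)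
  have h4 : (T + 6) / l * l ≤ T + 6 := Nat.div_mul_le_self _ _
  calc F.card * (μ * μ') = F.card * (d * l) := by rw [hld]
    _ ≤ 3 * ((T + 6) / l + 1) * (d * l) := Nat.mul_le_mul_right _ h3
    _ = 3 * (((T + 6) / l * l) * d + d * l) := by ring
    _ ≤ 3 * ((T + 6) * (L + 6) + μ * μ') := by
      rw [hld]
      exact Nat.mul_le_mul_left _ (Nat.add_le_add_right (Nat.mul_le_mul h4 hdL) _)

end Pool.Agent.N60.FD
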