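import Pool.Agent.N60.FD.Stm2

set_option autoImplicit false

/-! Project FD (helper60), leaf FD/FIN (helper225): the number of the steps with a very large gcd, in terms of the
bad steps and the Farey tree. -/

namespace Pool.Agent.N60.FD

open Finset Pool.Agent.R701.GD

private lemma fin_iso {D s f : ℕ} {A : ℕ → ℕ} (M L : ℕ) (hL : 1 ≤ L) (Iso : Finset ℕ)
    (hI : ∀ n ∈ Iso, n ∈ G D s f A M ∧ ¬ ∃ n' ∈ G D s f A M, n < n' ∧ n' ≤ n + L) :
    Iso.card ≤ f / L + 1 := by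
  classical
  have : Iso.card ≤ (range (f / L + 1)).card := by
    apply card_le_card_of_injOn (fun n => n / L)
    · intro n hn
      have hn' := (hI n hn).1
      rw [mem_G, mem_W] at hn'
      simp only [coe_range, Set.mem_Iio]
      exact Nat.lt_succ_of_le (Nat.div_le_div_right hn'.1.1.2)
    · intro n₁ h1 n₂ h2 heq
      have h1' := hI n₁ h1
      have h2' := hI n₂ h2
      simp only at heq
      have key : ∀ x y : ℕ, x / L = y / L → x ∈ G D s f A M → y ∈ G D s f A M →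
          (¬ ∃ n' ∈ G D s f A M, x < n' ∧ n' ≤ x + L) → ¬ x < y := by
        intro x y hxy _ hy hx2 hlt
        apply hx2
        refine ⟨y, hy, hlt, ?_⟩
        have a1 := Nat.div_add_mod x L
        have a2 := Nat.div_add_mod y L
        have a3 := Nat.mod_lt y (show 0 < L by omega)
        rw [hxy] at a1
        omega
      have k1 := key n₁ n₂ heq h1'.1 h2'.1 h1'.2
      have k2 := key n₂ n₁ heq.symm h2'.1 h1'.1 h2'.2
      omega
  simpa using this

private lemma fin_small {K D s N f : ℕ} {A : ℕ → ℕ} (h : Dat K D s N f A) (U b : ℕ)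
    (hb : 32 * K ^ 3 * D * U ≤ b) {n : ℕ} (hn : n ∈ G D s f A (8 * K * D)) :
    2 * K * U * v n ≤ g A n * b ^ 1 := by
  rw [mem_G, mem_W] at hn
  have h1 := h.v_le_Ks hn.1.1.2
  calc 2 * K * U * v n ≤ 2 * K * U * (2 * (K * s)) := Nat.mul_le_mul_left _ h1
    _ = 4 * K ^ 2 * U * s := by ring
    _ ≤ 4 * K ^ 2 * U * (8 * K * D * g A n) := Nat.mul_le_mul_left _ hn.2
    _ = g A n * (32 * K ^ 3 * D * U) := by ring
    _ ≤ g A n * b := Nat.mul_le_mul_left _ hb
    _ = g A n * b ^ 1 := by rw [pow_one]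

theorem fin_main : ST_FIN := by
  classical
  intro hTREE K D s N f A h L U J b Kt hL hU hb hbJ
  set Low := G D s f A (8 * K * D) with hLow
  set c := (Pool.Agent.R330.GL.S 1 1 Kt).card + 1 with hc
  set Iso := Low.filter (fun n => ¬ ∃ n' ∈ Low, n < n' ∧ n' ≤ n + L) with hIso
  have hIsoc : Iso.card ≤ f / L + 1 :=
    fin_iso (8 * K * D) L hL Iso fun n hn => by rw [hIso, mem_filter] at hn; exact hn
  set Q := Low.filter (fun n => ∃ n' ∈ Low, n < n' ∧ n' ≤ n + L) with hQ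
  have hLQ : Low.card = Q.card + Iso.card :=
    (card_filter_add_card_filter_not (s := Low) (fun n => ∃ n' ∈ Low, n < n' ∧ n' ≤ n + L)).symm
  have hκ : ∀ n ∈ Q, ∃ n', n' ∈ Low ∧ n < n' ∧ n' ≤ n + L ∧ ∀ x ∈ Low, n < x → n' ≤ x := by
    intro n hn
    rw [hQ, mem_filter] at hn
    obtain ⟨_, n₁, hn₁, hlt, hle⟩ := hn
    have hne : (Low.filter (fun x => n < x)).Nonempty := ⟨n₁, by simp [hn₁, hlt]⟩
    have hmem := (Low.filter (fun x => n < x)).min'_mem hne
    have hmin : ∀ x ∈ Low, n < x → (Low.filter (fun x => n < x)).min' hne ≤ x := by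
      intro x hx hnx
      exact min'_le _ _ (by simp [hx, hnx])
    rw [mem_filter] at hmem
    exact ⟨_, hmem.1, hmem.2, (hmin n₁ hn₁ hlt).trans hle, hmin⟩
  choose! κ k1 k2 k3 k4 using hκ
  have hQL : ∀ n ∈ Q, n ∈ Low := fun n hn => (mem_filter.1 hn).1
  set BI := Q.filter (fun n => ∃ k, n ≤ k ∧ k < κ n ∧ ∃ j < J, k ∈ Bad D s f A L U j) with hBI
  set R := Q.filter (fun n => ¬ ∃ k, n ≤ k ∧ k < κ n ∧ ∃ j < J, k ∈ Bad D s f A L U j) with hR
  have hQc : Q.card = BI.card + R.card :=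
    (card_filter_add_card_filter_not (s := Q)
      (fun n => ∃ k, n ≤ k ∧ k < κ n ∧ ∃ j < J, k ∈ Bad D s f A L U j)).symm
  -- the intervals are disjoint
  have hdis : ∀ n₁ ∈ Q, ∀ n₂ ∈ Q, ∀ k, n₁ ≤ k → k < κ n₁ → n₂ ≤ k → k < κ n₂ → n₁ = n₂ := by
    intro n₁ h1 n₂ h2 k a1 a2 a3 a4
    rcases lt_trichotomy n₁ n₂ with hlt | heq | hlt
    · have := k4 n₁ h1 n₂ (hQL n₂ h2) hlt
      omega
    · exact heq
    · have := k4 n₂ h2 n₁ (hQL n₁ h1) hlt
      omega
  have hBIc : BI.card ≤ ∑ j ∈ range J, (Bad D s f A L U j).card := by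
    have hφ : ∀ n ∈ BI, ∃ k, n ≤ k ∧ k < κ n ∧ k ∈ (range J).biUnion (Bad D s f A L U) := by
      intro n hn
      rw [hBI, mem_filter] at hn
      obtain ⟨_, k, a1, a2, j, hj, hk⟩ := hn
      exact ⟨k, a1, a2, mem_biUnion.2 ⟨j, mem_range.2 hj, hk⟩⟩
    choose! φ f1 f2 f3 using hφ
    refine le_trans ?_ card_biUnion_le
    apply card_le_card_of_injOn φ
    · intro n hn
      exact f3 n hn
    · intro n₁ h1 n₂ h2 heq
      have h1' : n₁ ∈ BI := h1
      have h2' : n₂ ∈ BI := h2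
      refine hdis n₁ (mem_filter.1 h1').1 n₂ (mem_filter.1 h2').1 (φ n₁) (f1 n₁ h1') (f2 n₁ h1') ?_ ?_
      · rw [heq]; exact f1 n₂ h2'
      · rw [heq]; exact f2 n₂ h2'
  have hb1 : 1 ≤ b := by
    have hK := h.K1
    have hD := h.D2
    refine le_trans ?_ hb
    have : 0 < 32 * K ^ 3 * D * U := by positivity
    omega
  have hlen : ∀ n ∈ R, c ≤ (Ico n (κ n)).card := by
    intro n hn
    rw [hR, mem_filter] at hn
    obtain ⟨hnQ, hnB⟩ := hn
    have hnL := hQL n hnQ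
    have hκL := k1 n hnQ
    rw [Nat.card_Ico, hc]
    refine hTREE K D s N f A h L U J b Kt hU hb1 hbJ 1 1 le_rfl le_rfl n (κ n) (mem_G.1 hnL).1
      (mem_G.1 hκL).1 (k2 n hnQ) (k3 n hnQ) ?_ (fin_small h U b hb hnL) (fin_small h U b hb hκL)
    intro k a1 a2 j hj hk
    exact hnB ⟨k, a1, a2, j, hj, hk⟩
  have hRc : R.card * c ≤ f := by
    have h1 : R.card * c ≤ ∑ n ∈ R, (Ico n (κ n)).card := by
      rw [← smul_eq_mul]
      exact card_nsmul_le_sum _ _ _ hlen
    have h2 : ∑ n ∈ R, (Ico n (κ n)).card = (R.biUnion fun n => Ico n (κ n)).card := by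
      rw [card_biUnion]
      intro n₁ h1 n₂ h2 hne
      refine disjoint_left.2 fun k a1 a2 => ?_
      rw [mem_Ico] at a1 a2
      exact hne (hdis n₁ (mem_filter.1 h1).1 n₂ (mem_filter.1 h2).1 k a1.1 a1.2 a2.1 a2.2)
    have h3 : (R.biUnion fun n => Ico n (κ n)) ⊆ Icc 1 f := by
      intro k hk
      rw [mem_biUnion] at hk
      obtain ⟨n, hn, hk⟩ := hk
      rw [mem_Ico] at hk
      have hnQ := (mem_filter.1 hn).1
      have e1 := (mem_G.1 (hQL n hnQ)).1
      have e2 := (mem_G.1 (k1 n hnQ)).1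
      rw [mem_W] at e1 e2
      rw [mem_Icc]
      omega
    have h4 := card_le_card h3
    rw [Nat.card_Icc] at h4
    omega
  calc Low.card * c = (BI.card + Iso.card) * c + R.card * c := by rw [hLQ, hQc]; ring
    _ ≤ ((f / L + 1) + ∑ j ∈ range J, (Bad D s f A L U j).card) * c + f := by
        refine add_le_add (Nat.mul_le_mul_right _ ?_) hRc
        omega

end Pool.Agent.N60.FD
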