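import Pool.Agent.N60.FD.Stm
import Pool.Agent.R701.GD.Rel

/-!
# Project FD, part NEAR: two steps with the same data are near (helper591)

Adaptation of `Dat.near` of `Pool.Agent.R701.GD.Rel`.
-/

set_option autoImplicit false

namespace Pool.Agent.N60.FD

open Finset Pool.Agent.R701.GD

lemma near_upper (η μ μ' m V₁ V₂ S₁ S₂ a₁ a₂ t u Aa : ℝ) (V1p : 0 < V₁) (V2p : 0 < V₂)
    (E1 : η * μ * μ' * a₁ = (m - μ') * V₁ ^ 2 + (m * η - μ * μ' * S₁) * V₁)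
    (E2 : η * μ * μ' * a₂ = (m - μ') * V₂ ^ 2 + (m * η - μ * μ' * S₂) * V₂)
    (hη : 1 ≤ |η|) (hμ : 1 ≤ μ) (hμ' : 1 ≤ μ') (hm : |m| ≤ Aa * (μ * μ'))
    (i1 : 1 / V₁ ≤ t) (i2 : 1 / V₂ ≤ t)
    (s1 : S₁ / V₁ ≤ u) (s2 : S₂ / V₂ ≤ u) (s1p : 0 ≤ S₁ / V₁) (s2p : 0 ≤ S₂ / V₂) :
    a₁ / V₁ ^ 2 - a₂ / V₂ ^ 2 ≤ Aa * t + u := by
  have F1 : η * μ * μ' * (a₁ / V₁ ^ 2) = (m - μ') + (m * η - μ * μ' * S₁) / V₁ := by
    have : η * μ * μ' * (a₁ / V₁ ^ 2) = (η * μ * μ' * a₁) / V₁ ^ 2 := by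
      ring
    rw [this, E1]
    field_simp
  have F2 : η * μ * μ' * (a₂ / V₂ ^ 2) = (m - μ') + (m * η - μ * μ' * S₂) / V₂ := by
    have : η * μ * μ' * (a₂ / V₂ ^ 2) = (η * μ * μ' * a₂) / V₂ ^ 2 := by
      ring
    rw [this, E2]
    field_simp
  set Δ : ℝ := a₁ / V₁ ^ 2 - a₂ / V₂ ^ 2 with hΔ
  have F3 : η * μ * μ' * Δ = m * η * (1 / V₁ - 1 / V₂) - μ * μ' * (S₁ / V₁ - S₂ / V₂) := by
    rw [hΔ, mul_sub, F1, F2]
    ring
  have i1p : 0 < 1 / V₁ := by positivity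
  have i2p : 0 < 1 / V₂ := by positivity
  have hmm0 : 0 < μ * μ' := by nlinarith
  have hAa : 0 ≤ Aa := by
    have h0 : 0 ≤ Aa * (μ * μ') := (abs_nonneg m).trans hm
    by_contra hc
    push Not at hc
    nlinarith
  have ht : 0 ≤ t := i1p.le.trans i1
  have hu : 0 ≤ u := s1p.trans s1
  have d1 : |1 / V₁ - 1 / V₂| ≤ t := by rw [abs_le]; constructor <;> linarith
  have d2 : |S₁ / V₁ - S₂ / V₂| ≤ u := by rw [abs_le]; constructor <;> linarith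
  have G1 : |η| * μ * μ' * |Δ| ≤ |η| * μ * μ' * (Aa * t + u) := by
    have l1 : |η * μ * μ' * Δ| = |η| * μ * μ' * |Δ| := by
      rw [abs_mul, abs_mul, abs_mul, abs_of_pos (by linarith : (0 : ℝ) < μ),
        abs_of_pos (by linarith : (0 : ℝ) < μ')]
    rw [← l1, F3]
    calc |m * η * (1 / V₁ - 1 / V₂) - μ * μ' * (S₁ / V₁ - S₂ / V₂)|
        ≤ |m * η * (1 / V₁ - 1 / V₂)| + |μ * μ' * (S₁ / V₁ - S₂ / V₂)| := abs_sub _ _
      _ = |m| * |η| * |1 / V₁ - 1 / V₂| + μ * μ' * |S₁ / V₁ - S₂ / V₂| := by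
          rw [abs_mul, abs_mul, abs_mul, abs_mul, abs_of_pos (by linarith : (0 : ℝ) < μ),
            abs_of_pos (by linarith : (0 : ℝ) < μ')]
      _ ≤ Aa * (μ * μ') * |η| * t + μ * μ' * u := by gcongr
      _ ≤ |η| * μ * μ' * (Aa * t) + |η| * μ * μ' * u := by
          have z2 : μ * μ' * u ≤ |η| * μ * μ' * u := by
            have h0 : (0 : ℝ) ≤ μ * μ' * u := by positivity
            calc μ * μ' * u = 1 * (μ * μ' * u) := by ring
              _ ≤ |η| * (μ * μ' * u) := by gcongr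
              _ = _ := by ring
          have z1 : Aa * (μ * μ') * |η| * t = |η| * μ * μ' * (Aa * t) := by ring
          linarith
      _ = _ := by ring
  have hpos : 0 < |η| * μ * μ' := by
    have : 0 < |η| := by linarith
    have : 0 < μ := by linarith
    have : 0 < μ' := by linarith
    positivity
  exact (le_abs_self _).trans (le_of_mul_le_mul_left G1 hpos)

theorem near_main : ST_NEAR := by
  intro K D s N f A h L M' hM' n₁ n₂ h1 h2 hlt η μ μ' m S₁ S₂ r1 r2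
  unfold TT
  obtain ⟨Aa, hAa⟩ : ∃ Aa : ℕ, Aa = C1 K D L := ⟨_, rfl⟩
  unfold Rel2 at r1 r2
  rw [← hAa] at r1 r2 ⊢
  rw [mem_W] at h1 h2
  obtain ⟨⟨h12, h1f⟩, h1s⟩ := h1
  obtain ⟨⟨h22, h2f⟩, h2s⟩ := h2
  have h1A := h.half n₁ h12 h1f
  have hD := h.D2
  obtain ⟨hη, -, hμ, hμ', hm, hS1, -, -, e1⟩ := r1
  obtain ⟨-, -, -, -, -, hS2, -, -, e2⟩ := r2
  have hK := h.K1
  have hs := h.s1
  have a1 := v_le n₁
  have a2 := le_v n₂
  have a3 := le_v n₁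
  rcases Nat.lt_or_ge (v n₁) (v n₂) with hv | hv
  swap
  · refine (show n₂ ≤ n₁ + 6 by omega).trans (Nat.add_le_add_left ?_ _)
    rw [add_assoc]
    exact Nat.le_add_right _ _
  have hA : A n₂ ≤ A n₁ := h.anti h12 hlt.le (by omega)
  -- real numbers
  have hN1 := h.N1
  have w1 := h.v_le_Ks h1f
  have w2 := h.v_le_Ks h2f
  have hsR : (0 : ℝ) < s := by exact_mod_cast (show 0 < s by omega)
  have hKR : (1 : ℝ) ≤ K := by exact_mod_cast hK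
  have hM'R : (1 : ℝ) ≤ M' := by exact_mod_cast hM'
  have hDR : (1 : ℝ) ≤ D := by exact_mod_cast (show 1 ≤ D by omega)
  have V1s : (s : ℝ) ≤ 2 * D * v n₁ := by
    exact_mod_cast h1s.trans (Nat.mul_le_mul_left _ a3)
  have V2s : (s : ℝ) ≤ 2 * D * v n₂ := by
    exact_mod_cast h2s.trans (Nat.mul_le_mul_left _ a2)
  have V1p : (0 : ℝ) < v n₁ := by exact_mod_cast (show 0 < v n₁ by omega)
  have V2p : (0 : ℝ) < v n₂ := by exact_mod_cast (show 0 < v n₂ by omega)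
  have V1u : (v n₁ : ℝ) ≤ 2 * (K * s) := by exact_mod_cast w1
  have V2u : (v n₂ : ℝ) ≤ 2 * (K * s) := by exact_mod_cast w2
  have V12 : (v n₁ : ℝ) < v n₂ := by exact_mod_cast hv
  have E1 : (η : ℝ) * μ * μ' * (A n₁ : ℝ)
      = (m - μ') * (v n₁ : ℝ) ^ 2 + (m * η - μ * μ' * S₁) * (v n₁ : ℝ) := by
    exact_mod_cast e1
  have E2 : (η : ℝ) * μ * μ' * (A n₂ : ℝ)
      = (m - μ') * (v n₂ : ℝ) ^ 2 + (m * η - μ * μ' * S₂) * (v n₂ : ℝ) := by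
    exact_mod_cast e2
  have hηR : (1 : ℝ) ≤ |(η : ℝ)| := by
    have : (1 : ℤ) ≤ |η| := Int.one_le_abs hη
    exact_mod_cast this
  have hμR : (1 : ℝ) ≤ μ := by exact_mod_cast hμ
  have hμR' : (1 : ℝ) ≤ μ' := by exact_mod_cast hμ'
  have hmR : |(m : ℝ)| ≤ Aa * (μ * μ') := by exact_mod_cast hm
  have i1 : 1 / (v n₁ : ℝ) ≤ 2 * D / s := by
    rw [div_le_div_iff₀ V1p hsR]; linarith
  have i2 : 1 / (v n₂ : ℝ) ≤ 2 * D / s := by
    rw [div_le_div_iff₀ V2p hsR]; linarith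
  have sb : ∀ (S : ℕ) (V : ℝ), M' * S ≤ L * s → (s : ℝ) ≤ 2 * D * V → 0 < V →
      (S : ℝ) / V ≤ 2 * D * L / M' := by
    intro S V hS hV hVp
    have hSR : (M' : ℝ) * S ≤ L * s := by exact_mod_cast hS
    rw [div_le_div_iff₀ hVp (by linarith)]
    have : (L : ℝ) * s ≤ L * (2 * D * V) := by
      have : (0 : ℝ) ≤ L := Nat.cast_nonneg _
      gcongr
    linarith
  have s1 := sb S₁ (v n₁) hS1 V1s V1p
  have s2 := sb S₂ (v n₂) hS2 V2s V2p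
  have s1p : (0 : ℝ) ≤ S₁ / (v n₁ : ℝ) := by positivity
  have s2p : (0 : ℝ) ≤ S₂ / (v n₂ : ℝ) := by positivity
  have U := near_upper η μ μ' m (v n₁) (v n₂) S₁ S₂ (A n₁) (A n₂) (2 * D / s) (2 * D * L / M') Aa V1p V2p
    E1 E2 hηR hμR hμR' hmR i1 i2 s1 s2 s1p s2p
  have hAR : (A n₂ : ℝ) ≤ A n₁ := by exact_mod_cast hA
  have hA1 : (s : ℝ) ^ 2 / 8 ≤ A n₁ := by
    have : s * s ≤ 2 * A n₁ := hN1.trans h1A
    have : (s : ℝ) * s ≤ 2 * A n₁ := by exact_mod_cast this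
    nlinarith
  have D' := lowerD s K (v n₁) (v n₂) (A n₁) (A n₂) hsR hKR V1p V12 V1u V2u hAR hA1
  have G4 := D'.trans U
  rw [div_le_iff₀ (by positivity)] at G4
  have G5 : (v n₂ : ℝ) - v n₁ ≤ 128 * K ^ 3 * D * Aa + 128 * K ^ 3 * D * L * s / M' := by
    have : (Aa * (2 * D / s) + 2 * D * L / M') * (64 * K ^ 3 * s)
        = 128 * (K : ℝ) ^ 3 * D * Aa + 128 * K ^ 3 * D * L * s / M' := by
      field_simp
      ring
    linarith
  have G6 : (v n₂ : ℝ) - v n₁ ≤ 256 * K ^ 3 * D * Aa + 256 * K ^ 3 * D * L * s / M' := by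
    have y1 : (0 : ℝ) ≤ 128 * K ^ 3 * D * Aa := by positivity
    have y2 : (0 : ℝ) ≤ 128 * (K : ℝ) ^ 3 * D * L * s / M' := by positivity
    have y3 : 256 * (K : ℝ) ^ 3 * D * L * s / M' = 2 * (128 * (K : ℝ) ^ 3 * D * L * s / M') := by
      ring
    rw [y3]
    linarith
  by_contra hcon
  push Not at hcon
  obtain ⟨Q, hQ⟩ : ∃ Q, Q = 256 * K ^ 3 * D * L * s / M' := ⟨_, rfl⟩
  rw [← hQ] at hcon
  have hQ1 : 256 * K ^ 3 * D * L * s < M' * (Q + 1) := by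
    rw [hQ]
    exact Nat.lt_mul_div_succ (256 * K ^ 3 * D * L * s) (show 0 < M' by omega)
  have hQ2 : 256 * (K : ℝ) ^ 3 * D * L * s / M' < Q + 1 := by
    rw [div_lt_iff₀ (by linarith)]
    have : (256 : ℝ) * K ^ 3 * D * L * s < M' * (Q + 1) := by exact_mod_cast hQ1
    linarith
  have hcon2 : v n₁ + 256 * K ^ 3 * D * Aa + Q + 1 ≤ v n₂ := aux_shift _ _ _ _ _ _ a1 a2 hcon
  have hcon3 : (v n₁ : ℝ) + 256 * K ^ 3 * D * Aa + Q + 1 ≤ v n₂ := by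
    exact_mod_cast hcon2
  linarith

end Pool.Agent.N60.FD
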