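import Pool.Agent.N60.FD.Stm

/-! Project FD (helper60), leaf FD/REL: the relation of two near steps (adaptation of `Dat.rel` of
`Pool.Agent.R701.GD.Rel`). -/

set_option autoImplicit false

namespace Pool.Agent.N60.FD

open Finset Pool.Agent.R701.GD

theorem rel_main : ST_REL := by
  intro K D s N f A h L M' n n' μ μ' hL hn hn' h1 h2 hμ hμ' hM h3
  rw [mem_W] at hn hn'
  obtain ⟨⟨hn2, hnf⟩, hns⟩ := hn
  obtain ⟨⟨hn2', hnf'⟩, hns'⟩ := hn'
  have hK := h.K1
  have hs := h.s1
  obtain ⟨α, hα⟩ := g_dvd_A (A := A) n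
  obtain ⟨α', hα'⟩ := g_dvd_A (A := A) n'
  have hg := h.g_pos (n := n) (by omega)
  have hg' := h.g_pos (n := n') (by omega)
  set S := ∑ k ∈ Ico (n + 1) n', g A k with hS
  have hstep := h.step n hn2 hnf
  have htele := h.tele (n + 1) n' (by omega) (by omega) (by omega)
  rw [← hS] at htele
  have hv := h.v_le_Ks hnf
  have hv' := h.v_le_Ks hnf'
  have hvn := le_v n
  have hvn' := le_v n'
  have hμpos : 1 ≤ μ := by
    rcases Nat.eq_zero_or_pos μ with h0 | h0
    · rw [h0, mul_zero] at hμ; omega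
    · exact h0
  have hμpos' : 1 ≤ μ' := by
    rcases Nat.eq_zero_or_pos μ' with h0 | h0
    · rw [h0, mul_zero] at hμ'; omega
    · exact h0
  -- `s` is bounded by both products
  have hsb : s ≤ 2 * D * (g A n * μ) := by
    rw [← hμ]
    exact hns.trans (Nat.mul_le_mul_left _ hvn)
  have hsb' : s ≤ 2 * D * (g A n' * μ') := by
    rw [← hμ']
    exact hns'.trans (Nat.mul_le_mul_left _ hvn')
  -- bound for `S`
  have hSb : M' * S ≤ L * s := by
    rw [hS, mul_sum]
    calc ∑ k ∈ Ico (n + 1) n', M' * g A k ≤ (Ico (n + 1) n').card • s := by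
          apply sum_le_card_nsmul
          intro k hk
          rw [mem_Ico] at hk
          exact (h3 k (by omega) (by omega)).le
      _ = (n' - (n + 1)) * s := by rw [Nat.card_Ico, smul_eq_mul]
      _ ≤ L * s := Nat.mul_le_mul_right _ (by omega)
  have hSg : S ≤ g A n := by
    have : M' * S ≤ M' * g A n := by
      calc M' * S ≤ L * s := hSb
        _ ≤ L * (2 * D * (g A n * μ)) := Nat.mul_le_mul_left _ hsb
        _ = (2 * D * L * (μ * 1)) * g A n := by ring
        _ ≤ (2 * D * L * (μ * μ')) * g A n := by gcongr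
        _ ≤ M' * g A n := Nat.mul_le_mul_right _ hM.le
    exact Nat.le_of_mul_le_mul_left this (by omega)
  -- η
  set η : ℤ := (v n' : ℤ) - v n with hη
  have hηb : |η| ≤ (L : ℤ) + 6 := by
    have a1 := v_le n
    have a2 := v_le n'
    rw [abs_le]
    constructor <;> omega
  -- m
  set m : ℤ := (μ' : ℤ) * α - μ * α' with hm
  have e1 : (A n' : ℤ) = A n - g A n - S := by
    have : A n' + S + g A n = A n := by omega
    have : (A n' : ℤ) + S + g A n = A n := by exact_mod_cast this
    linarith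
  have c1 : (v n : ℤ) = g A n * μ := by exact_mod_cast hμ
  have c2 : (v n' : ℤ) = g A n' * μ' := by exact_mod_cast hμ'
  have c3 : (A n : ℤ) = g A n * α := by exact_mod_cast hα
  have c4 : (A n' : ℤ) = g A n' * α' := by exact_mod_cast hα'
  have key : (g A n : ℤ) * g A n' * m = (g A n + S) * v n + η * A n := by
    have : (g A n : ℤ) * g A n' * m = A n * v n' - A n' * v n := by
      rw [hm]
      calc (g A n : ℤ) * g A n' * (μ' * α - μ * α')
          = (g A n * α) * (g A n' * μ') - (g A n' * α') * (g A n * μ) := by ring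
        _ = A n * v n' - A n' * v n := by rw [← c1, ← c2, ← c3, ← c4]
    rw [this, e1, hη]
    ring
  -- bound for m
  have hmb : |m| ≤ (C1 K D L : ℤ) * (μ * μ') := by
    have hgZ : (0 : ℤ) < g A n := by exact_mod_cast hg
    have hgZ' : (0 : ℤ) < g A n' := by exact_mod_cast hg'
    have hAn : A n ≤ N := h.le_N hn2 (by omega)
    have hN2 := h.N2
    have p1 : (g A n + S) * v n ≤ (8 * K * D * (μ * μ')) * (g A n * g A n') := by
      calc (g A n + S) * v n ≤ (2 * g A n) * (2 * (K * s)) :=
            Nat.mul_le_mul (by omega) hv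
        _ ≤ (2 * g A n) * (2 * (K * (2 * D * (g A n' * μ')))) := by gcongr
        _ = (8 * K * D * (1 * μ')) * (g A n * g A n') := by ring
        _ ≤ (8 * K * D * (μ * μ')) * (g A n * g A n') := by gcongr
    have p2 : A n ≤ 8 * D ^ 2 * (μ * μ') * (g A n * g A n') := by
      calc A n ≤ 2 * (s * s) := hAn.trans hN2
        _ ≤ 2 * ((2 * D * (g A n * μ)) * (2 * D * (g A n' * μ'))) := by gcongr
        _ = _ := by ring
    have q1 : ((g A n : ℤ) + S) * v n ≤ (8 * K * D * (μ * μ')) * (g A n * g A n') := by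
      exact_mod_cast p1
    have q2 : (A n : ℤ) ≤ 8 * D ^ 2 * (μ * μ') * (g A n * g A n') := by exact_mod_cast p2
    have q3 : |(g A n : ℤ) * g A n' * m| ≤ (g A n * g A n') * ((C1 K D L : ℤ) * (μ * μ')) := by
      rw [key]
      calc |((g A n : ℤ) + S) * v n + η * A n| ≤ |((g A n : ℤ) + S) * v n| + |η * A n| :=
            abs_add_le _ _
        _ = ((g A n : ℤ) + S) * v n + |η| * A n := by
            rw [abs_of_nonneg (a := ((g A n : ℤ) + S) * v n) (by positivity), abs_mul,
              abs_of_nonneg (a := (A n : ℤ)) (by positivity)]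
        _ ≤ (8 * K * D * (μ * μ')) * (g A n * g A n')
            + (L + 6) * (8 * D ^ 2 * (μ * μ') * (g A n * g A n')) := by
            gcongr
        _ = (g A n * g A n') * ((C1 K D L : ℤ) * (μ * μ')) := by
            unfold C1
            push_cast
            ring
    rw [abs_mul, abs_of_pos (a := (g A n : ℤ) * g A n') (by positivity)] at q3
    exact le_of_mul_le_mul_left q3 (by positivity)
  -- final relation
  have rel : η * μ * μ' * (A n : ℤ) = (m - μ') * (v n : ℤ) ^ 2 + (m * η - μ * μ' * S) * (v n : ℤ) := by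
    have t1 : (v n' : ℤ) = v n + η := by rw [hη]; ring
    have t2 : (μ : ℤ) * μ' * (g A n * g A n' * m) = v n * v n' * m := by
      rw [c1, c2]; ring
    rw [key] at t2
    have t3 : (μ : ℤ) * μ' * ((g A n + S) * v n + η * A n)
        = μ' * (v n : ℤ) ^ 2 + μ * μ' * S * v n + η * μ * μ' * A n := by
      calc (μ : ℤ) * μ' * ((g A n + S) * v n + η * A n)
          = μ' * (g A n * μ) * v n + μ * μ' * S * v n + η * μ * μ' * A n := by ring
        _ = μ' * (v n : ℤ) ^ 2 + μ * μ' * S * v n + η * μ * μ' * A n := by rw [← c1]; ring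
    rw [t3, t1] at t2
    linarith
  have hd1 : (μ : ℤ) ∣ (v n : ℤ) := ⟨g A n, by rw [c1]; ring⟩
  have hd2 : (μ' : ℤ) ∣ (v n : ℤ) + η := ⟨g A n', by
    have : (v n : ℤ) + η = v n' := by rw [hη]; ring
    rw [this, c2]; ring⟩
  refine ⟨η, m, S, ?_, hηb, hμpos, hμpos', hmb, hSb, hd1, hd2, rel⟩
  -- η ≠ 0
  intro hη0
  rw [hη0] at rel
  have hvpos : (0 : ℤ) < v n := by exact_mod_cast (show 0 < v n by omega)
  have r1 : (v n : ℤ) * ((m - μ') * v n) = (v n : ℤ) * (μ * μ' * S) := by
    linear_combination -rel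
  have r2 : (m - μ') * (v n : ℤ) = μ * μ' * S := mul_left_cancel₀ hvpos.ne' r1
  rcases Nat.eq_zero_or_pos S with hS0 | hS0
  · -- no step in between
    have : n' = n + 1 := by
      by_contra hne
      have hmem : n + 1 ∈ Ico (n + 1) n' := by rw [mem_Ico]; omega
      have h5 : g A (n + 1) ≤ S := single_le_sum (f := g A) (fun _ _ => Nat.zero_le _) hmem
      have h6 := h.g_pos (n := n + 1) (by omega)
      omega
    have h7 := v_ne n
    rw [this] at hη
    apply h7
    have : (v (n + 1) : ℤ) = v n := by linarith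
    exact_mod_cast this.symm
  · have hdvd : v n ∣ μ * μ' * S := by
      have : (v n : ℤ) ∣ μ * μ' * S := ⟨m - μ', by rw [← r2]; ring⟩
      exact_mod_cast this
    have hle : v n ≤ μ * μ' * S := Nat.le_of_dvd (by positivity) hdvd
    have h8 : M' * s ≤ (2 * D * L * (μ * μ')) * s := by
      calc M' * s ≤ M' * (2 * D * v n) :=
            Nat.mul_le_mul_left _ (hns.trans (Nat.mul_le_mul_left _ hvn))
        _ ≤ M' * (2 * D * (μ * μ' * S)) := by gcongr
        _ = 2 * D * (μ * μ') * (M' * S) := by ring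
        _ ≤ 2 * D * (μ * μ') * (L * s) := by gcongr
        _ = _ := by ring
    have := Nat.le_of_mul_le_mul_right h8 (by omega)
    omega

end Pool.Agent.N60.FD
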