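import Pool.Agent.R701.GD.Count
import Pool.Agent.R330.GL.Top

set_option autoImplicit false

/-! Project FD (helper60): the gcd recursion for prime triples, `f(N) ≥ c √N log N / log log N`. Statements of the leaves.
`Dat`, `W`, `g`, `v` are those of the starting library `Pool.Agent.R701.GD`, `S` (the Farey tree) is in `Pool.Agent.R330.GL`. -/

namespace Pool.Agent.N60.FD

open Finset Pool.Agent.R701.GD

/-- the constant in the bound for `m` -/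
def C1 (K D L : ℕ) : ℕ := 8 * K * D + 8 * (L + 6) * D ^ 2

/-- the relation attached to two near steps `n < n'` with quotients `μ = v n / g n`, `μ' = v n' / g n'`,
without large steps in between -/
def Rel2 (K D s L M' : ℕ) (A : ℕ → ℕ) (n : ℕ) (η : ℤ) (μ μ' : ℕ) (m : ℤ) (S : ℕ) : Prop :=
  η ≠ 0 ∧ |η| ≤ (L : ℤ) + 6 ∧ 1 ≤ μ ∧ 1 ≤ μ' ∧ |m| ≤ (C1 K D L : ℤ) * (μ * μ') ∧ M' * S ≤ L * s ∧
    (μ : ℤ) ∣ (v n : ℤ) ∧ (μ' : ℤ) ∣ (v n : ℤ) + η ∧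
    η * μ * μ' * (A n : ℤ) = (m - μ') * (v n : ℤ) ^ 2 + (m * η - μ * μ' * S) * (v n : ℤ)

/-- the length of the windows -/
def TT (K D s L M' : ℕ) : ℕ := 6 + 256 * K ^ 3 * D * C1 K D L + 256 * K ^ 3 * D * L * s / M'

/-- leaf FD/REL (adaptation of `Dat.rel` of `Pool.Agent.R701.GD.Rel`) -/
def ST_REL : Prop :=
  ∀ (K D s N f : ℕ) (A : ℕ → ℕ), Dat K D s N f A → ∀ L M' n n' μ μ' : ℕ, 1 ≤ L →
    n ∈ W D s f → n' ∈ W D s f → n < n' → n' ≤ n + L →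
    v n = g A n * μ → v n' = g A n' * μ' → 2 * D * L * (μ * μ') < M' →
    (∀ k, n < k → k < n' → M' * g A k < s) →
    ∃ (η : ℤ) (m : ℤ) (S : ℕ), Rel2 K D s L M' A n η μ μ' m S

/-- leaf FD/NEAR (adaptation of `Dat.near` of `Pool.Agent.R701.GD.Rel`) -/
def ST_NEAR : Prop :=
  ∀ (K D s N f : ℕ) (A : ℕ → ℕ), Dat K D s N f A → ∀ L M' : ℕ, 1 ≤ M' → ∀ n₁ n₂ : ℕ,
    n₁ ∈ W D s f → n₂ ∈ W D s f → n₁ < n₂ → ∀ (η : ℤ) (μ μ' : ℕ) (m : ℤ) (S₁ S₂ : ℕ),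
    Rel2 K D s L M' A n₁ η μ μ' m S₁ → Rel2 K D s L M' A n₂ η μ μ' m S₂ →
    n₂ ≤ n₁ + TT K D s L M'

/-- leaf FD/FIB: the steps of a short window with two divisibility conditions -/
def ST_FIB : Prop :=
  ∀ (F : Finset ℕ) (n₀ T L μ μ' : ℕ) (η : ℤ), 1 ≤ μ → 1 ≤ μ' → η ≠ 0 → |η| ≤ (L : ℤ) + 6 →
    (∀ n ∈ F, n₀ ≤ n ∧ n ≤ n₀ + T) →
    (∀ n ∈ F, (μ : ℤ) ∣ (v n : ℤ) ∧ (μ' : ℤ) ∣ (v n : ℤ) + η) →
    F.card * (μ * μ') ≤ 3 * ((T + 6) * (L + 6) + μ * μ')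

/-- the bad steps at the dyadic scale `2 ^ j`: `n` is followed within `L` by a step `n'` of the window such that the product
`P = μ μ'` of the two quotients is in `[2 ^ j, 2 ^ (j + 1))`, and no step in between has a gcd at least `s / (U P)` -/
noncomputable def Bad (D s f : ℕ) (A : ℕ → ℕ) (L U j : ℕ) : Finset ℕ :=
  open Classical in
  (W D s f).filter (fun n => ∃ n' ∈ W D s f, n < n' ∧ n' ≤ n + L ∧ ∃ μ μ' : ℕ, v n = g A n * μ ∧ v n' = g A n' * μ' ∧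
    2 ^ j ≤ μ * μ' ∧ μ * μ' < 2 ^ (j + 1) ∧ ∀ k, n < k → k < n' → U * (μ * μ') * g A k < s)

/-- leaf FD/BAD: the number of bad steps -/
def ST_BAD : Prop := ST_REL → ST_NEAR → ST_FIB →
  ∀ (K D s N f : ℕ) (A : ℕ → ℕ), Dat K D s N f A → ∀ L U j : ℕ, 1 ≤ L → 4 * D * L < U →
    (Bad D s f A L U j).card ≤ 18 * (2 * L + 13) * (j + 2) * C1 K D L *
      (2 ^ j * ((12 + 256 * K ^ 3 * D * C1 K D L) * (L + 6) + 2 ^ (j + 1)) +
        (L + 6) * (256 * K ^ 3 * D * L * s / U + 2 ^ j))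

/-- leaf FD/TREE: the Farey tree of large gcds between two steps with small quotients, if there is no bad step -/
def ST_TREE : Prop :=
  ∀ (K D s N f : ℕ) (A : ℕ → ℕ), Dat K D s N f A → ∀ L U J b Kt : ℕ, 1 ≤ U → 1 ≤ b → b ^ Kt < 2 ^ J →
    ∀ P Q : ℕ, 1 ≤ P → 1 ≤ Q → ∀ n n' : ℕ, n ∈ W D s f → n' ∈ W D s f → n < n' → n' ≤ n + L →
      (∀ k, n ≤ k → k < n' → ∀ j < J, k ∉ Bad D s f A L U j) →
      2 * K * U * v n ≤ g A n * b ^ P → 2 * K * U * v n' ≤ g A n' * b ^ Q →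
      (Pool.Agent.R330.GL.S P Q Kt).card + 1 ≤ n' - n

end Pool.Agent.N60.FD
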