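import Pool.Agent.N60.FD.Stm

set_option autoImplicit false

/-! Project FD (helper60): statements of the leaves of the second part. -/

namespace Pool.Agent.N60.FD

open Finset Pool.Agent.R701.GD

/-- leaf FD/FIN: the number of the steps with a very large gcd, in terms of the bad steps and the Farey tree -/
def ST_FIN : Prop := ST_TREE →
  ∀ (K D s N f : ℕ) (A : ℕ → ℕ), Dat K D s N f A → ∀ L U J b Kt : ℕ, 1 ≤ L → 1 ≤ U → 32 * K ^ 3 * D * U ≤ b →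
    b ^ Kt < 2 ^ J →
    (G D s f A (8 * K * D)).card * ((Pool.Agent.R330.GL.S 1 1 Kt).card + 1) ≤
      ((f / L + 1) + ∑ j ∈ range J, (Bad D s f A L U j).card) * ((Pool.Agent.R330.GL.S 1 1 Kt).card + 1) + f

/-- the parameters -/
def LL (K D : ℕ) : ℕ := 64 * K ^ 2 * D
def UU (K D J : ℕ) : ℕ :=
  2 ^ 20 * K ^ 4 * D ^ 2 * LL K D * (LL K D + 6) * (2 * LL K D + 13) * C1 K D (LL K D) * (J + 2) ^ 2
def bb (K D J : ℕ) : ℕ := 32 * K ^ 3 * D * UU K D J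

/-- leaf FD/CORE: the contradiction -/
def ST_CORE : Prop := ST_REL → ST_NEAR → ST_FIB → ST_BAD → ST_TREE → ST_FIN →
  ∀ (K D s N f : ℕ) (A : ℕ → ℕ), Dat K D s N f A → ∀ J M : ℕ, 1 ≤ M → 16 ^ J ≤ s → bb K D J ^ (2 * M) < 2 ^ J →
    20 * K ^ 2 * D < M ^ 2 → False

/-- leaf FD/ASY: the choice of the parameters -/
def ST_ASY : Prop :=
  ∃ c : ℝ, 0 < c ∧ ∃ N₀ : ℕ, ∀ N : ℕ, N₀ ≤ N → ∀ K D : ℕ, 1 ≤ K → 1 ≤ D →
    (K : ℝ) ^ 2 * D ≤ (c * Real.log N / Real.log (Real.log N)) ^ 2 →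
    ∃ J M : ℕ, 1 ≤ M ∧ 16 ^ J ≤ Nat.sqrt N ∧ bb K D J ^ (2 * M) < 2 ^ J ∧ 20 * K ^ 2 * D < M ^ 2

end Pool.Agent.N60.FD
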