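import Pool.Agent.N60.FD.Stm2

set_option autoImplicit false

/-! Project FD (helper60): the final theorem from the leaves. -/

namespace Pool.Agent.N60.FD

open Finset Filter Topology Pool.Agent.R701.GD

lemma C1_pos {K D L : ℕ} (hK : 1 ≤ K) (hD : 1 ≤ D) : 1 ≤ C1 K D L := by
  unfold C1
  have : 1 ≤ K * D := Nat.one_le_iff_ne_zero.mpr (by positivity)
  nlinarith

lemma D_le_bb {K D J : ℕ} (hK : 1 ≤ K) (hD : 1 ≤ D) : D ≤ bb K D J := by
  have hL : 1 ≤ LL K D := by
    unfold LL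
    exact Nat.one_le_iff_ne_zero.mpr (by positivity)
  have hC : 1 ≤ C1 K D (LL K D) := C1_pos hK hD
  have hU : 1 ≤ UU K D J := by
    unfold UU
    apply Nat.one_le_iff_ne_zero.mpr
    have h1 : LL K D ≠ 0 := by omega
    have h2 : C1 K D (LL K D) ≠ 0 := by omega
    positivity
  unfold bb
  calc D = 1 * D * 1 := by ring
    _ ≤ (32 * K ^ 3) * D * UU K D J := by
      apply Nat.mul_le_mul _ hU
      apply Nat.mul_le_mul_right
      exact Nat.one_le_iff_ne_zero.mpr (by positivity)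
    _ = _ := by ring

/-- the main theorem in terms of `x`, `y` -/
theorem top (hcore : ∀ (K D s N f : ℕ) (A : ℕ → ℕ), Dat K D s N f A → ∀ J M : ℕ, 1 ≤ M → 16 ^ J ≤ s →
      bb K D J ^ (2 * M) < 2 ^ J → 20 * K ^ 2 * D < M ^ 2 → False) (hasy : ST_ASY) :
    ∃ c : ℝ, 0 < c ∧ ∃ N₀ : ℕ, ∀ N : ℕ, N₀ ≤ N → ∀ a : ℕ → ℤ, a 1 = (N : ℤ) - 6 →
      (∀ n : ℕ, 2 ≤ n → a n = a (n - 1) - ((Int.gcd (a (n - 1)) ((n + b n : ℕ) : ℤ) : ℕ) : ℤ)) →
      (∀ x y : ℝ, 1 ≤ x → 2 ≤ y → x ^ 2 * y ≤ (c * Real.log N / Real.log (Real.log N)) ^ 2 →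
        ∀ n : ℕ, 1 ≤ n → (n : ℝ) ≤ √(N : ℝ) * x → (N : ℝ) - a n ≤ N / y) := by
  obtain ⟨c₀, hc₀, N₀, hN₀⟩ := hasy
  refine ⟨c₀ / 6, by positivity, max N₀ 10000, ?_⟩
  intro N hN a ha1 ha x y hx hy2 hxy n₀ hn₀1 hn₀
  have hN1 : N₀ ≤ N := le_trans (le_max_left _ _) hN
  have hN2 : 10000 ≤ N := le_trans (le_max_right _ _) hN
  by_contra hcon
  push Not at hcon
  set s := Nat.sqrt N with hsd
  have hs : 100 ≤ s := Nat.le_sqrt.mpr (by omega)
  set K := ⌈2 * x⌉₊ with hK
  set D := ⌈y⌉₊ + 1 with hD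
  have hNR : (0 : ℝ) < N := by exact_mod_cast (show 0 < N by omega)
  have hypos : 0 < y := by linarith
  have hKpos : 1 ≤ K := Nat.ceil_pos.mpr (by linarith)
  have hD2 : 2 ≤ D := by
    have : 0 < ⌈y⌉₊ := Nat.ceil_pos.mpr hypos
    omega
  have hyD : y ≤ D := by
    have := Nat.le_ceil y
    rw [hD]
    push_cast
    linarith
  have hK3 : (K : ℝ) ≤ 3 * x := by
    have := Nat.ceil_lt_add_one (show 0 ≤ 2 * x by linarith)
    linarith
  have hD3 : (D : ℝ) ≤ 3 * y := by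
    have := Nat.ceil_lt_add_one (show 0 ≤ y by linarith)
    rw [hD]
    push_cast
    linarith
  -- the parameters
  have hpar : (K : ℝ) ^ 2 * D ≤ (c₀ * Real.log N / Real.log (Real.log N)) ^ 2 := by
    have e1 : (c₀ / 6 * Real.log N / Real.log (Real.log N)) ^ 2 =
        (c₀ * Real.log N / Real.log (Real.log N)) ^ 2 / 36 := by ring
    rw [e1] at hxy
    have hK0 : (0 : ℝ) ≤ K := Nat.cast_nonneg _
    have hD0 : (0 : ℝ) ≤ D := Nat.cast_nonneg _
    calc (K : ℝ) ^ 2 * D ≤ (3 * x) ^ 2 * (3 * y) := by gcongr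
      _ = 27 * (x ^ 2 * y) := by ring
      _ ≤ 27 * ((c₀ * Real.log N / Real.log (Real.log N)) ^ 2 / 36) := by gcongr
      _ ≤ _ := by
        have : 0 ≤ (c₀ * Real.log N / Real.log (Real.log N)) ^ 2 := by positivity
        linarith
  obtain ⟨J, M, hM, hJ, hb, hMM⟩ := hN₀ N hN1 K D hKpos (by omega) hpar
  have hDs : D ≤ s := by
    calc D ≤ bb K D J := D_le_bb hKpos (by omega)
      _ ≤ bb K D J ^ (2 * M) := Nat.le_self_pow (by omega) _
      _ ≤ 2 ^ J := hb.le
      _ ≤ 16 ^ J := Nat.pow_le_pow_left (by norm_num) _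
      _ ≤ s := hJ
  have h6y : 6 * y ≤ N := by
    have h1 : s * s ≤ N := Nat.sqrt_le N
    have h2 : 6 * D ≤ s * s := Nat.mul_le_mul (by omega) hDs
    have h3 : (6 : ℝ) * D ≤ N := by exact_mod_cast h2.trans h1
    linarith
  -- the first time below
  classical
  have hex : ∃ n : ℕ, 1 ≤ n ∧ (N : ℝ) / y < (N : ℝ) - a n := ⟨n₀, hn₀1, hcon⟩
  set f := Nat.find hex with hfd
  obtain ⟨hf1, hfy⟩ := Nat.find_spec hex
  rw [← hfd] at hf1 hfy
  have hfn₀ : f ≤ n₀ := Nat.find_min' hex ⟨hn₀1, hcon⟩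
  have hbefore : ∀ k, 1 ≤ k → k < f → (N : ℝ) - a k ≤ N / y := by
    intro k hk1 hk2
    have := Nat.find_min hex (m := k) (by rw [← hfd]; exact hk2)
    push Not at this
    exact this hk1
  have hNy : (N : ℝ) / y ≤ N / 2 := by gcongr
  have hhalf : ∀ k, 1 ≤ k → k < f → (N : ℤ) ≤ 2 * a k := by
    intro k hk1 hk2
    have h1 := (hbefore k hk1 hk2).trans hNy
    have h2 : (N : ℝ) ≤ 2 * a k := by linarith
    exact_mod_cast h2
  have hf2 : 2 ≤ f := by
    by_contra hlt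
    have hf : f = 1 := by omega
    rw [hf, ha1] at hfy
    push_cast at hfy
    have : (6 : ℝ) ≤ N / y := by
      rw [le_div_iff₀ hypos]
      exact h6y
    linarith
  have haf : 0 ≤ a f := by
    have h1 := ha f hf2
    have h2 := hhalf (f - 1) (by omega) (by omega)
    have hpos : 0 < a (f - 1) := by omega
    have := Int.le_of_dvd hpos (Int.gcd_dvd_left (a := a (f - 1)) (b := ((f + b f : ℕ) : ℤ)))
    linarith
  have hnn : ∀ k, 1 ≤ k → k ≤ f → 0 ≤ a k := by
    intro k hk1 hk2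
    rcases hk2.eq_or_lt with h | h
    · rw [h]; exact haf
    · have := hhalf k hk1 h
      omega
  have hsR : (100 : ℝ) ≤ s := by exact_mod_cast hs
  have hfK : f ≤ K * s := by
    have e1 : Real.sqrt N ≤ s + 1 := Real.real_sqrt_le_nat_sqrt_succ
    have e2 : 2 * x ≤ K := Nat.le_ceil _
    have e0 : (f : ℝ) ≤ n₀ := by exact_mod_cast hfn₀
    have e3 : (f : ℝ) ≤ K * s := by
      have hx0 : 0 ≤ x := by linarith
      calc (f : ℝ) ≤ n₀ := e0
        _ ≤ Real.sqrt N * x := hn₀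
        _ ≤ (s + 1) * x := by gcongr
        _ ≤ (2 * s) * x := by gcongr; linarith
        _ = (2 * x) * s := by ring
        _ ≤ K * s := by gcongr
    exact_mod_cast e3
  have hDat : Dat K D s N f (fun n => (a (n - 1)).natAbs) := by
    refine ⟨hKpos, hD2, hs, hDs, hf2, hfK, Nat.sqrt_le N, ?_, ?_, ?_, ?_, ?_⟩
    · have h1 : N ≤ s * s + s + s := Nat.sqrt_le_add N
      nlinarith
    · show (a (2 - 1)).natAbs + 6 = N
      rw [show 2 - 1 = 1 from rfl, ha1]
      omega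
    · show D * (a (f + 1 - 1)).natAbs + N ≤ D * N
      rw [Nat.add_sub_cancel]
      have h1 : (N : ℝ) ≤ D * ((N : ℝ) - a f) := by
        have e1 : (N : ℝ) / y ≤ (N : ℝ) - a f := hfy.le
        have e2 : (N : ℝ) ≤ y * ((N : ℝ) - a f) := by
          rw [div_le_iff₀ hypos] at e1
          linarith
        have e3 : 0 ≤ (N : ℝ) - a f := le_trans (by positivity) e1
        exact e2.trans (by gcongr)
      have h2 : (((a f).natAbs : ℕ) : ℝ) = a f := by
        rw [Nat.cast_natAbs, abs_of_nonneg haf]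
      have h3 : (D : ℝ) * ((a f).natAbs : ℕ) + N ≤ D * N := by
        rw [h2]
        linarith
      exact_mod_cast h3
    · intro n hn2 hnf
      show (a (n + 1 - 1)).natAbs + Nat.gcd (a (n - 1)).natAbs (v n) = (a (n - 1)).natAbs
      rw [Nat.add_sub_cancel]
      have h1 := ha n hn2
      have h2 := hnn n (by omega) hnf
      have h3 := hnn (n - 1) (by omega) (by omega)
      have h4 : Int.gcd (a (n - 1)) ((n + b n : ℕ) : ℤ) = Nat.gcd (a (n - 1)).natAbs (v n) := rfl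
      rw [h4] at h1
      omega
    · intro n hn2 hnf
      show N ≤ 2 * (a (n - 1)).natAbs
      have := hhalf (n - 1) (by omega) (by omega)
      omega
  exact hcore K D s N f _ hDat J M hM hJ hb hMM

/-- the final form, with the lower bound for the zero -/
theorem top2 (hcore : ∀ (K D s N f : ℕ) (A : ℕ → ℕ), Dat K D s N f A → ∀ J M : ℕ, 1 ≤ M → 16 ^ J ≤ s →
      bb K D J ^ (2 * M) < 2 ^ J → 20 * K ^ 2 * D < M ^ 2 → False) (hasy : ST_ASY) :
    ∃ c : ℝ, 0 < c ∧ ∃ N₀ : ℕ, ∀ N : ℕ, N₀ ≤ N → ∀ a : ℕ → ℤ, a 1 = (N : ℤ) - 6 →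
      (∀ n : ℕ, 2 ≤ n → a n = a (n - 1) - ((Int.gcd (a (n - 1)) ((n + b n : ℕ) : ℤ) : ℕ) : ℤ)) →
      (∀ x y : ℝ, 1 ≤ x → 2 ≤ y → x ^ 2 * y ≤ (c * Real.log N / Real.log (Real.log N)) ^ 2 →
        ∀ n : ℕ, 1 ≤ n → (n : ℝ) ≤ √(N : ℝ) * x → (N : ℝ) - a n ≤ N / y) ∧
      ∀ f : ℕ, IsLeast {n : ℕ | 1 ≤ n ∧ a n = 0} f →
        c * (√(N : ℝ) * (Real.log N / Real.log (Real.log N))) < f := by
  obtain ⟨c, hc, N₀, h⟩ := top hcore hasy
  have hlog : Tendsto (fun N : ℕ => Real.log N) atTop atTop :=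
    Real.tendsto_log_atTop.comp tendsto_natCast_atTop_atTop
  have hT : Tendsto (fun N : ℕ => Real.log N / Real.log (Real.log N)) atTop atTop := by
    have h1 : Tendsto (fun t : ℝ => t / Real.log t) atTop atTop := by
      have h2 : Tendsto (fun t : ℝ => Real.log t / t) atTop (𝓝 0) := by
        have := Real.isLittleO_log_id_atTop.tendsto_div_nhds_zero
        simpa using this
      have h3 : ∀ᶠ t : ℝ in atTop, 0 < Real.log t / t := by
        filter_upwards [eventually_gt_atTop (1 : ℝ)] with t ht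
        exact div_pos (Real.log_pos ht) (by linarith)
      have h4 := (tendsto_nhdsWithin_iff.mpr ⟨h2, h3.mono fun t ht => ht⟩ :
        Tendsto (fun t : ℝ => Real.log t / t) atTop (𝓝[>] 0)).inv_tendsto_nhdsGT_zero
      refine h4.congr fun t => ?_
      simp
    exact h1.comp hlog
  have hev := hT.eventually_ge_atTop (2 / c)
  obtain ⟨N₁, hN₁⟩ := eventually_atTop.mp hev
  refine ⟨c / 2, by positivity, max (max N₀ N₁) 3, ?_⟩
  intro N hN a ha1 ha
  have hNa : N₀ ≤ N := le_trans (le_trans (le_max_left _ _) (le_max_left _ _)) hN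
  have hNb : N₁ ≤ N := le_trans (le_trans (le_max_right _ _) (le_max_left _ _)) hN
  have hNc : 3 ≤ N := le_trans (le_max_right _ _) hN
  have hNR : (0 : ℝ) < N := by exact_mod_cast (show 0 < N by omega)
  have h1 := hN₁ N hNb
  set T := Real.log N / Real.log (Real.log N) with hTd
  have hT0 : 0 < T := lt_of_lt_of_le (by positivity) h1
  have hmain := h N hNa a ha1 ha
  constructor
  · intro x y hx hy hxy n hn1 hn
    apply hmain x y hx hy _ n hn1 hn
    refine hxy.trans ?_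
    have e1 : c / 2 * Real.log N / Real.log (Real.log N) = c * T / 2 := by rw [hTd]; ring
    have e2 : c * Real.log N / Real.log (Real.log N) = c * T := by rw [hTd]; ring
    rw [e1, e2]
    have : 0 ≤ (c * T) ^ 2 := by positivity
    nlinarith
  · intro f hf
    by_contra hcon
    push Not at hcon
    obtain ⟨⟨hf1, haf⟩, -⟩ := hf
    have hx1 : 1 ≤ c / 2 * T := by
      rw [div_le_iff₀ hc] at h1
      linarith
    have h2 := hmain (c / 2 * T) 2 hx1 le_rfl (by
      have e2 : c * Real.log N / Real.log (Real.log N) = c * T := by rw [hTd]; ring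
      rw [e2]
      have : 0 ≤ (c * T) ^ 2 := by positivity
      nlinarith) f hf1 (by
      calc (f : ℝ) ≤ c / 2 * (√(N : ℝ) * T) := hcon
        _ = √(N : ℝ) * (c / 2 * T) := by ring)
    rw [haf] at h2
    push_cast at h2
    linarith

end Pool.Agent.N60.FD
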