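import Pool.Agent.N60.FD.Stm

set_option autoImplicit false

/-! Project FD (helper60), leaf TREE: the Farey tree of large gcds between two steps. -/

namespace Pool.Agent.N60.FD

open Finset Pool.Agent.R701.GD

theorem tree_main : ST_TREE := by
  classical
  intro K D s N f A hD L U J b Kt hU hb hKt
  have key : ∀ r P Q : ℕ, Kt < P + Q + r → 1 ≤ P → 1 ≤ Q → ∀ n n' : ℕ, n ∈ W D s f → n' ∈ W D s f →
      n < n' → n' ≤ n + L → (∀ k, n ≤ k → k < n' → ∀ j < J, k ∉ Bad D s f A L U j) →
      2 * K * U * v n ≤ g A n * b ^ P → 2 * K * U * v n' ≤ g A n' * b ^ Q →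
      (Pool.Agent.R330.GL.S P Q Kt).card + 1 ≤ n' - n := by
    intro r
    induction r with
    | zero =>
      intro P Q hK hP hQ n n' _ _ hnn _ _ _ _
      rw [Pool.Agent.R330.GL.S_empty P Q Kt hP hQ (by omega)]
      omega
    | succ r ih =>
      intro P Q hK hP hQ n n' hn hn' hnn hnL hbad h1 h2
      rcases Nat.lt_or_ge Kt (P + Q) with hlt | hge
      · rw [Pool.Agent.R330.GL.S_empty P Q Kt hP hQ hlt]
        omega
      have hnW := mem_W.1 hn
      have hnW' := mem_W.1 hn'
      have hgn : 0 < g A n := hD.g_pos (by omega)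
      have hgn' : 0 < g A n' := hD.g_pos (by omega)
      obtain ⟨μ, hμ⟩ := g_dvd_v (A := A) n
      obtain ⟨μ', hμ'⟩ := g_dvd_v (A := A) n'
      have hv : 0 < v n := by have := le_v n; omega
      have hv' : 0 < v n' := by have := le_v n'; omega
      have hμ0 : 0 < μ := by
        rcases Nat.eq_zero_or_pos μ with h | h
        · rw [h, mul_zero] at hμ
          omega
        · exact h
      have hμ0' : 0 < μ' := by
        rcases Nat.eq_zero_or_pos μ' with h | h
        · rw [h, mul_zero] at hμ'
          omega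
        · exact h
      have hKU : 1 ≤ 2 * K * U := by
        have := hD.K1
        have h3 : 0 < 2 * K * U := by positivity
        omega
      have b1 : 2 * K * U * μ ≤ b ^ P := by
        rw [hμ] at h1
        refine Nat.le_of_mul_le_mul_left ?_ hgn
        calc g A n * (2 * K * U * μ) = 2 * K * U * (g A n * μ) := by ring
          _ ≤ g A n * b ^ P := h1
      have b2 : 2 * K * U * μ' ≤ b ^ Q := by
        rw [hμ'] at h2
        refine Nat.le_of_mul_le_mul_left ?_ hgn'
        calc g A n' * (2 * K * U * μ') = 2 * K * U * (g A n' * μ') := by ring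
          _ ≤ g A n' * b ^ Q := h2
      have b3 : (2 * K * U * μ) * (2 * K * U * μ') ≤ b ^ (P + Q) := by
        rw [pow_add]
        exact Nat.mul_le_mul b1 b2
      have b4 : μ * μ' ≤ (2 * K * U * μ) * (2 * K * U * μ') :=
        Nat.mul_le_mul (Nat.le_mul_of_pos_left _ hKU) (Nat.le_mul_of_pos_left _ hKU)
      have b5 : b ^ (P + Q) ≤ b ^ Kt := Nat.pow_le_pow_right hb hge
      have hp : μ * μ' ≠ 0 := by positivity
      set j := Nat.log 2 (μ * μ') with hj
      have hj1 : 2 ^ j ≤ μ * μ' := Nat.pow_log_le_self 2 hp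
      have hj2 : μ * μ' < 2 ^ (j + 1) := Nat.lt_pow_succ_log_self (by norm_num) _
      have hjJ : j < J := by
        have h3 : 2 ^ j < 2 ^ J := by omega
        exact (Nat.pow_lt_pow_iff_right (by norm_num)).1 h3
      have hnb := hbad n le_rfl hnn j hjJ
      obtain ⟨k, hk1, hk2, hk3⟩ : ∃ k, n < k ∧ k < n' ∧ s ≤ U * (μ * μ') * g A k := by
        by_contra hcon
        push Not at hcon
        apply hnb
        unfold Bad
        rw [mem_filter]
        exact ⟨hn, n', hn', hnn, hnL, μ, μ', hμ, hμ', hj1, hj2, hcon⟩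
      have hkW : k ∈ W D s f := convex hn hn' hk1.le hk2.le
      have hkW' := mem_W.1 hkW
      have hvk := hD.v_le_Ks (n := k) hkW'.1.2
      have h3 : 2 * K * U * v k ≤ g A k * b ^ (P + Q) := by
        calc 2 * K * U * v k ≤ 2 * K * U * (2 * (K * s)) := Nat.mul_le_mul_left _ hvk
          _ ≤ 2 * K * U * (2 * (K * (U * (μ * μ') * g A k))) :=
              Nat.mul_le_mul_left _ (Nat.mul_le_mul_left _ (Nat.mul_le_mul_left _ hk3))
          _ = g A k * ((2 * K * U * μ) * (2 * K * U * μ')) := by ring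
          _ ≤ g A k * b ^ (P + Q) := Nat.mul_le_mul_left _ b3
      have i1 := ih P (P + Q) (by omega) hP (by omega) n k hn hkW hk1 (by omega)
        (fun x hx1 hx2 => hbad x hx1 (by omega)) h1 h3
      have i2 := ih (P + Q) Q (by omega) (by omega) hQ k n' hkW hn' hk2 (by omega)
        (fun x hx1 hx2 => hbad x (by omega) hx2) h3 h2
      have i3 := Pool.Agent.R330.GL.card_S_le P Q Kt hP hQ
      omega
  intro P Q hP hQ n n' hn hn' hnn hnL hbad h1 h2
  exact key (Kt + 1) P Q (by omega) hP hQ n n' hn hn' hnn hnL hbad h1 h2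

end Pool.Agent.N60.FD
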